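import Pool.Agent.R569.OSR.Terms

set_option autoImplicit false

/-!
# Relations with positive definitions

Every relation defined below is given by a positive formula over one-step rewriting and equality; we
work out what the relations say on lists.
-/

namespace Pool.Agent.R569.OSR

open Tm

variable {P : List Pat}

/-! ### Prefixes -/

/-- proper prefixes -/
def PP (p l : List ℕ) : Prop := ∃ q, q ≠ [] ∧ l = p ++ q

/-- two lists which differ at some place -/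
def Dv (l l' : List ℕ) : Prop :=
  ∃ p m n q q', m ≠ n ∧ l = p ++ m :: q ∧ l' = p ++ n :: q'

theorem PP.pre {p l : List ℕ} (h : PP p l) : p <+: l := by
  obtain ⟨q, _, rfl⟩ := h
  exact ⟨q, rfl⟩

theorem PP.lt {p l : List ℕ} (h : PP p l) : p.length < l.length := by
  obtain ⟨q, hq, rfl⟩ := h
  have := List.length_pos_iff.2 hq
  simp
  omega

theorem PP_iff {p l : List ℕ} : PP p l ↔ p <+: l ∧ p ≠ l := by
  constructor
  · intro h
    refine ⟨h.pre, ?_⟩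
    rintro rfl
    exact absurd h.lt (lt_irrefl _)
  · rintro ⟨⟨q, rfl⟩, h2⟩
    refine ⟨q, ?_, rfl⟩
    rintro rfl
    simp at h2

theorem compare (l l' : List ℕ) : l = l' ∨ PP l' l ∨ PP l l' ∨ Dv l l' := by
  induction l generalizing l' with
  | nil => cases l' with
    | nil => exact Or.inl rfl
    | cons n l' => exact Or.inr (Or.inr (Or.inl ⟨n :: l', by simp, rfl⟩))
  | cons m l ih => cases l' with
    | nil => exact Or.inr (Or.inl ⟨m :: l, by simp, rfl⟩)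
    | cons n l' =>
      by_cases h : m = n
      · subst h
        rcases ih l' with rfl | ⟨q, hq, rfl⟩ | ⟨q, hq, rfl⟩ | ⟨p, m', n', q, q', h1, rfl, rfl⟩
        · exact Or.inl rfl
        · exact Or.inr (Or.inl ⟨q, hq, rfl⟩)
        · exact Or.inr (Or.inr (Or.inl ⟨q, hq, rfl⟩))
        · exact Or.inr (Or.inr (Or.inr ⟨m :: p, m', n', q, q', h1, rfl, rfl⟩))
      · exact Or.inr (Or.inr (Or.inr ⟨[], m, n, l, l', h, rfl, rfl⟩))

theorem Dv.not_prefix {l l' : List ℕ} (h : Dv l l') : ¬ l <+: l' := by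
  obtain ⟨p, m, n, q, q', hmn, rfl, rfl⟩ := h
  rw [List.prefix_append_right_inj, List.cons_prefix_cons]
  exact fun hh => hmn hh.1

theorem Dv.symm {l l' : List ℕ} (h : Dv l l') : Dv l' l := by
  obtain ⟨p, m, n, q, q', hmn, rfl, rfl⟩ := h
  exact ⟨p, n, m, q', q, hmn.symm, rfl, rfl⟩

theorem Dv_of_NC {l l' p p' : List ℕ} (h : NC p p') (h1 : p <+: l) (h2 : p' <+: l') :
    Dv l l' := by
  obtain ⟨p, m, q, k, rfl, hk, rfl⟩ := h
  obtain ⟨r, rfl⟩ := h1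
  obtain ⟨r', rfl⟩ := h2
  exact ⟨p, m, k, q ++ r, q ++ r', by omega, by simp, by simp⟩

theorem NC_absurd {l p p' : List ℕ} (h : NC p p') (h1 : p <+: l) (h2 : p' <+: l) : False :=
  (Dv_of_NC h h1 h2).not_prefix (List.prefix_refl _)

/-! ### Lists and marks -/

theorem St_hst_lt {l : List ℕ} {t : Tm} (h : St P (hst l) t) : W t < W (hst l) := by
  rcases succ_pre (Or.inl rfl) h with ⟨l', h2, rfl⟩ | ⟨p, q, rfl, hq, h2⟩ |
    ⟨h2, p, q, rfl, hq, hw, rfl⟩ | ⟨g', hg', rfl⟩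
  · exact W_NC e h2
  · rcases h2 with rfl | rfl | rfl
    · exact W_cut (p := p) hq e e (by simp [W])
    · exact W_cut (p := p) hq e (a 0) (by simp [W])
    · exact W_cut (p := p) hq e (a 10) (by simp [W])
  · exact W_cut (p := p) hq e (a 9) (by simp [W])
  · rcases succ_e hg' with rfl | rfl
    · simp only [W_pre, W]; omega
    · simp only [W_pre, W]; omega

theorem Cy_hst {l : List ℕ} {k : ℕ} (h : Cy P (k + 1) (hst l)) : False := by
  obtain ⟨u, h1, h2⟩ := h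
  have := St_hst_lt h1
  have := W_le_Wk h2
  omega

theorem Cy_num {n : ℕ} {k : ℕ} (h : Cy P (k + 1) (num n)) : False := by
  obtain ⟨u, h1, h2⟩ := h
  obtain ⟨m, hm, rfl⟩ := succ_num h1
  have := W_le_Wk h2
  rw [W_num, W_num] at this
  omega

/-- the marks next to a list -/
theorem mark_hst {l : List ℕ} {X : Tm} {k : ℕ} (h : St P (hst l) X) (hc : Cy P (k + 1) X) :
    (∃ p, PP p l ∧ X = pre p (a 0) ∧ (0 : Fin 17) ∈ rs (k + 1) 0) ∨
    (∃ p, PP p l ∧ X = pre p (a 10) ∧ (10 : Fin 17) ∈ rs (k + 1) 10) ∨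
    (∃ p q, l = p ++ q ∧ q ≠ [] ∧ WinN P q ∧ X = pre p (a 9) ∧ (9 : Fin 17) ∈ rs (k + 1) 9) ∨
    (X = pre l (a 2) ∧ (2 : Fin 17) ∈ rs (k + 1) 2) ∨
    (X = pre l (a 5) ∧ (5 : Fin 17) ∈ rs (k + 1) 5) := by
  rcases succ_pre (Or.inl rfl) h with ⟨l', h2, rfl⟩ | ⟨p, q, rfl, hq, h2⟩ |
    ⟨h2, p, q, rfl, hq, hw, rfl⟩ | ⟨g', hg', rfl⟩
  · exact absurd hc Cy_hst
  · rcases h2 with rfl | rfl | rfl
    · exact absurd hc Cy_hst
    · exact Or.inl ⟨p, ⟨q, hq, rfl⟩, rfl, Cy_mark hc⟩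
    · exact Or.inr (Or.inl ⟨p, ⟨q, hq, rfl⟩, rfl, Cy_mark hc⟩)
  · exact Or.inr (Or.inr (Or.inl ⟨p, q, rfl, hq, hw, rfl, Cy_mark hc⟩))
  · rcases succ_e hg' with rfl | rfl
    · exact Or.inr (Or.inr (Or.inr (Or.inl ⟨rfl, Cy_mark hc⟩)))
    · exact Or.inr (Or.inr (Or.inr (Or.inr ⟨rfl, Cy_mark hc⟩)))

/-- the marks next to a marked list -/
theorem mark_pre {l : List ℕ} {i : Fin 17} {X : Tm} {k : ℕ} (h : St P (pre l (a i)) X)
    (hc : Cy P (k + 1) X) :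
    (∃ l', NC l l' ∧ X = pre l' (a i) ∧ i ∈ rs (k + 1) i) ∨
    (∃ p, PP p l ∧ X = pre p (a 0) ∧ (0 : Fin 17) ∈ rs (k + 1) 0) ∨
    (∃ p, PP p l ∧ X = pre p (a 10) ∧ (10 : Fin 17) ∈ rs (k + 1) 10) ∨
    ∃ j, cg i j = true ∧ X = pre l (a j) ∧ j ∈ rs (k + 1) j := by
  rcases succ_pre (Or.inr ⟨i, rfl⟩) h with ⟨l', h2, rfl⟩ | ⟨p, q, rfl, hq, h2⟩ |
    ⟨h2, p, q, rfl, hq, hw, rfl⟩ | ⟨g', hg', rfl⟩
  · exact Or.inl ⟨l', h2, rfl, Cy_mark hc⟩
  · rcases h2 with rfl | rfl | rfl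
    · exact absurd hc Cy_hst
    · exact Or.inr (Or.inl ⟨p, ⟨q, hq, rfl⟩, rfl, Cy_mark hc⟩)
    · exact Or.inr (Or.inr (Or.inl ⟨p, ⟨q, hq, rfl⟩, rfl, Cy_mark hc⟩))
  · cases h2
  · obtain ⟨j, hj, rfl⟩ := succ_a hg'
    exact Or.inr (Or.inr (Or.inr ⟨j, hj, rfl, Cy_mark hc⟩))

theorem m0_3 : ¬ (0 : Fin 17) ∈ rs 3 0 := by decide
theorem m0_5 : ¬ (0 : Fin 17) ∈ rs 5 0 := by decide
theorem m0_7 : ¬ (0 : Fin 17) ∈ rs 7 0 := by decide
theorem m10_2 : ¬ (10 : Fin 17) ∈ rs 2 10 := by decide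
theorem m10_3 : ¬ (10 : Fin 17) ∈ rs 3 10 := by decide
theorem m10_5 : ¬ (10 : Fin 17) ∈ rs 5 10 := by decide
theorem m9_2 : ¬ (9 : Fin 17) ∈ rs 2 9 := by decide
theorem m9_3 : ¬ (9 : Fin 17) ∈ rs 3 9 := by decide
theorem m9_7 : ¬ (9 : Fin 17) ∈ rs 7 9 := by decide
theorem m2_2 : ¬ (2 : Fin 17) ∈ rs 2 2 := by decide
theorem m2_5 : ¬ (2 : Fin 17) ∈ rs 5 2 := by decide
theorem m2_7 : ¬ (2 : Fin 17) ∈ rs 7 2 := by decide
theorem m5_2 : ¬ (5 : Fin 17) ∈ rs 2 5 := by decide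
theorem m5_3 : ¬ (5 : Fin 17) ∈ rs 3 5 := by decide
theorem m5_7 : ¬ (5 : Fin 17) ∈ rs 7 5 := by decide

theorem hst2 {l : List ℕ} {X : Tm} (h : St P (hst l) X) (hc : Cy P 2 X) :
    ∃ p, PP p l ∧ X = pre p (a 0) := by
  rcases mark_hst h hc with ⟨p, h1, h2, _⟩ | ⟨p, _, _, h3⟩ | ⟨p, _, _, _, _, _, h3⟩ | ⟨_, h3⟩ |
    ⟨_, h3⟩
  · exact ⟨p, h1, h2⟩
  · exact absurd h3 m10_2
  · exact absurd h3 m9_2
  · exact absurd h3 m2_2
  · exact absurd h3 m5_2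

theorem hst7 {l : List ℕ} {X : Tm} (h : St P (hst l) X) (hc : Cy P 7 X) :
    ∃ p, PP p l ∧ X = pre p (a 10) := by
  rcases mark_hst h hc with ⟨p, _, _, h3⟩ | ⟨p, h1, h2, _⟩ | ⟨p, _, _, _, _, _, h3⟩ | ⟨_, h3⟩ |
    ⟨_, h3⟩
  · exact absurd h3 m0_7
  · exact ⟨p, h1, h2⟩
  · exact absurd h3 m9_7
  · exact absurd h3 m2_7
  · exact absurd h3 m5_7

theorem hst3 {l : List ℕ} {X : Tm} (h : St P (hst l) X) (hc : Cy P 3 X) : X = pre l (a 2) := by
  rcases mark_hst h hc with ⟨p, _, _, h3⟩ | ⟨p, _, _, h3⟩ | ⟨p, _, _, _, _, _, h3⟩ | ⟨h1, h3⟩ |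
    ⟨_, h3⟩
  · exact absurd h3 m0_3
  · exact absurd h3 m10_3
  · exact absurd h3 m9_3
  · exact h1
  · exact absurd h3 m5_3

theorem hst5 {l : List ℕ} {X : Tm} (h : St P (hst l) X) (hc : Cy P 5 X) :
    X = pre l (a 5) ∨ ∃ p q, l = p ++ q ∧ q ≠ [] ∧ WinN P q ∧ X = pre p (a 9) := by
  rcases mark_hst h hc with ⟨p, _, _, h3⟩ | ⟨p, _, _, h3⟩ | ⟨p, q, h1, h2, h3, h4, _⟩ | ⟨h1, h3⟩ |
    ⟨h1, h3⟩
  · exact absurd h3 m0_5
  · exact absurd h3 m10_5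
  · exact Or.inr ⟨p, q, h1, h2, h3, h4⟩
  · exact absurd h3 m2_5
  · exact Or.inl h1

theorem pre03 {l : List ℕ} {X : Tm} (h : St P (pre l (a 0)) X) (hc : Cy P 3 X) :
    X = pre l (a 2) := by
  rcases mark_pre h hc with ⟨_, _, _, h3⟩ | ⟨p, _, _, h3⟩ | ⟨p, _, _, h3⟩ | ⟨j, h1, h2, h3⟩
  · exact absurd h3 m0_3
  · exact absurd h3 m0_3
  · exact absurd h3 m10_3
  · have : ∀ j, cg 0 j = true → j ∈ rs 3 j → j = 2 := by decide
    rw [h2, this j h1 h3]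

theorem pre05 {l : List ℕ} {X : Tm} (h : St P (pre l (a 0)) X) (hc : Cy P 5 X) :
    X = pre l (a 5) := by
  rcases mark_pre h hc with ⟨_, _, _, h3⟩ | ⟨p, _, _, h3⟩ | ⟨p, _, _, h3⟩ | ⟨j, h1, h2, h3⟩
  · exact absurd h3 m0_5
  · exact absurd h3 m0_5
  · exact absurd h3 m10_5
  · have : ∀ j, cg 0 j = true → j ∈ rs 5 j → j = 5 := by decide
    rw [h2, this j h1 h3]

theorem pre23 {l : List ℕ} {X : Tm} (h : St P (pre l (a 2)) X) (hc : Cy P 3 X) :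
    (∃ l', NC l l' ∧ X = pre l' (a 2)) ∨ X = pre l (a 3) := by
  rcases mark_pre h hc with ⟨l', h1, h2, h3⟩ | ⟨p, _, _, h3⟩ | ⟨p, _, _, h3⟩ | ⟨j, h1, h2, h3⟩
  · exact Or.inl ⟨l', h1, h2⟩
  · exact absurd h3 m0_3
  · exact absurd h3 m10_3
  · have : ∀ j, cg 2 j = true → j ∈ rs 3 j → j = 3 := by decide
    rw [h2, this j h1 h3]
    exact Or.inr rfl

theorem pre55 {l : List ℕ} {X : Tm} (h : St P (pre l (a 5)) X) (hc : Cy P 5 X) :
    (∃ l', NC l l' ∧ X = pre l' (a 5)) ∨ X = pre l (a 6) := by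
  rcases mark_pre h hc with ⟨l', h1, h2, h3⟩ | ⟨p, _, _, h3⟩ | ⟨p, _, _, h3⟩ | ⟨j, h1, h2, h3⟩
  · exact Or.inl ⟨l', h1, h2⟩
  · exact absurd h3 m0_5
  · exact absurd h3 m10_5
  · have : ∀ j, cg 5 j = true → j ∈ rs 5 j → j = 6 := by decide
    rw [h2, this j h1 h3]
    exact Or.inr rfl

theorem pre95 {l : List ℕ} {X : Tm} (h : St P (pre l (a 9)) X) (hc : Cy P 5 X) :
    (∃ l', NC l l' ∧ X = pre l' (a 9)) ∨ X = pre l (a 5) := by
  rcases mark_pre h hc with ⟨l', h1, h2, h3⟩ | ⟨p, _, _, h3⟩ | ⟨p, _, _, h3⟩ | ⟨j, h1, h2, h3⟩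
  · exact Or.inl ⟨l', h1, h2⟩
  · exact absurd h3 m0_5
  · exact absurd h3 m10_5
  · have : ∀ j, cg 9 j = true → j ∈ rs 5 j → j = 5 := by decide
    rw [h2, this j h1 h3]
    exact Or.inr rfl

/-! ### Two marked lists reached from one term -/

theorem fin_pred {x : Tm} {L : List ℕ} {j : Fin 17} (h : St P x (pre L (a j)))
    (hj : j = 5 ∨ j = 6 ∨ j = 9) : fin x ≠ a 2 ∧ fin x ≠ a 3 ∧ fin x ≠ a 4 := by
  rcases pred_pre h with ⟨h1, _⟩ | ⟨_, σ, p, rfl⟩ | ⟨_, rfl⟩ | ⟨i, h1, rfl⟩ |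
    ⟨p, m, q, Z, _, rfl⟩
  · exfalso
    have : ∀ j : Fin 17, (j = 5 ∨ j = 6 ∨ j = 9) → (j = 0 ∨ j = 10) → False := by decide
    exact this j hj h1
  · rw [fin_pre, fin_inst]
    simp
  · show fin (pre L e) ≠ _ ∧ _
    rw [fin_pre]
    simp [fin]
  · rw [fin_pre]
    have : ∀ i j : Fin 17, cg i j = true → (j = 5 ∨ j = 6 ∨ j = 9) → i ≠ 2 ∧ i ≠ 3 ∧ i ≠ 4 := by
      decide
    have h2 := this i j h1 hj
    simpa [fin] using h2
  · rw [fin_pre]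
    simp only [fin, fin_pre]
    have : ∀ j : Fin 17, (j = 5 ∨ j = 6 ∨ j = 9) → j ≠ 2 ∧ j ≠ 3 ∧ j ≠ 4 := by
      decide
    simpa using this j hj

theorem two_marks {x : Tm} {L L' : List ℕ} {i j : Fin 17} (h : St P x (pre L (a i)))
    (h' : St P x (pre L' (a j))) (hi : i = 2 ∨ i = 3) (hj : j = 5 ∨ j = 6 ∨ j = 9) :
    i = 2 ∧ ∃ g, (g = e ∨ g = a 0 ∨ g = a 10) ∧ x = pre L g := by
  obtain ⟨f2, f3, f4⟩ := fin_pred h' hj
  rcases pred_pre h with ⟨h1, _⟩ | ⟨h1, _⟩ | ⟨h1, rfl⟩ | ⟨k, h1, rfl⟩ |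
    ⟨p, m, q, Z, _, rfl⟩
  · exfalso
    have : ∀ i : Fin 17, (i = 2 ∨ i = 3) → (i = 0 ∨ i = 10) → False := by decide
    exact this i hi h1
  · exfalso
    have : ∀ i : Fin 17, (i = 2 ∨ i = 3) → i = 9 → False := by decide
    exact this i hi h1
  · refine ⟨?_, e, Or.inl rfl, rfl⟩
    have : ∀ i : Fin 17, (i = 2 ∨ i = 3) → (i = 2 ∨ i = 5) → i = 2 := by decide
    exact this i hi h1
  · rw [fin_pre] at f2 f3 f4
    have : ∀ i k : Fin 17, (i = 2 ∨ i = 3) → cg k i = true → k ≠ 2 → k ≠ 3 → k ≠ 4 →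
        i = 2 ∧ (k = 0 ∨ k = 10) := by decide
    obtain ⟨e1, e2⟩ := this i k hi h1 (fun hh => f2 (by rw [hh]; rfl))
      (fun hh => f3 (by rw [hh]; rfl)) (fun hh => f4 (by rw [hh]; rfl))
    refine ⟨e1, a k, ?_, rfl⟩
    rcases e2 with rfl | rfl
    · exact Or.inr (Or.inl rfl)
    · exact Or.inr (Or.inr rfl)
  · exfalso
    rw [fin_pre] at f2 f3
    simp only [fin, fin_pre] at f2 f3
    rcases hi with rfl | rfl
    · exact f2 rfl
    · exact f3 rfl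

theorem two_cuts {x : Tm} {L : List ℕ} (h : St P x (pre L (a 0)))
    (h' : St P x (pre L (a 10))) : ∃ t u, x = pre L (c t u) := by
  rcases pred_pre h with ⟨_, u, v, rfl⟩ | ⟨h1, _⟩ | ⟨h1, rfl⟩ | ⟨k, h1, rfl⟩ |
    ⟨p, m, q, Z, _, rfl⟩
  · exact ⟨u, v, rfl⟩
  · exact absurd h1 (by decide)
  · exact absurd h1 (by decide)
  · have e0 : ∀ k : Fin 17, cg k 0 = true → k = 1 := by decide
    have e1 := e0 k h1
    subst e1
    rcases pred_pre h' with ⟨_, u, v, h2⟩ | ⟨h1, _⟩ | ⟨h1, _⟩ | ⟨k, h3, h2⟩ |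
      ⟨p, m, q, Z, _, h2⟩
    · exact ⟨u, v, h2⟩
    · exact absurd h1 (by decide)
    · exact absurd h1 (by decide)
    · exfalso
      rw [← pre_a_inj h2] at h3
      revert h3
      decide
    · exfalso
      have := congrArg fin h2
      rw [fin_pre, fin_pre] at this
      simp only [fin, fin_pre] at this
      simp at this
  · rcases pred_pre h' with ⟨_, u, v, h2⟩ | ⟨h1, _⟩ | ⟨h1, _⟩ | ⟨k, h3, h2⟩ |
      ⟨p, m, q, Z, _, h2⟩
    · exact ⟨u, v, h2⟩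
    · exact absurd h1 (by decide)
    · exact absurd h1 (by decide)
    · exfalso
      have := congrArg fin h2
      rw [fin_pre, fin_pre] at this
      simp only [fin, fin_pre] at this
      have e1 : 0 = k := by simpa using this
      subst e1
      revert h3
      decide
    · exfalso
      have := congrArg fin h2
      rw [fin_pre, fin_pre] at this
      simp only [fin, fin_pre] at this
      simp at this

/-! ### The relations -/

variable (P) in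
/-- some closed walk has length 1, 2, 3, 5 or 7 -/
def G (y : Tm) : Prop := Cy P 1 y ∨ Cy P 2 y ∨ Cy P 3 y ∨ Cy P 5 y ∨ Cy P 7 y

variable (P) in
/-- there is a mark of the second kind next to `t` -/
def HH (t : Tm) : Prop := ∃ X, St P t X ∧ Cy P 3 X

variable (P) in
/-- numerals -/
def EE (y : Tm) : Prop := ∀ t, G P t ∨ HH P t ∨ y = t ∨ St P y t ∨ St P t y

variable (P) in
/-- marked prefixes -/
def Md (y Y : Tm) : Prop := Cy P 3 Y ∧ (St P y Y ∨ ∃ A, St P y A ∧ Cy P 2 A ∧ St P A Y)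

variable (P) in
/-- marked prefixes -/
def Mz (y Y : Tm) : Prop := Cy P 5 Y ∧ (St P y Y ∨ ∃ A, St P y A ∧ Cy P 2 A ∧ St P A Y)

variable (P) in
/-- `y` is a proper prefix of `x` -/
def Sx (x y : Tm) : Prop := ∃ A X, St P x A ∧ Cy P 2 A ∧ St P A X ∧ Cy P 3 X ∧ St P y X

variable (P) in
/-- `x` is a proper prefix of `y` -/
def Sy (y x : Tm) : Prop := ∃ A X X', St P y A ∧ Cy P 2 A ∧ St P A X ∧ Cy P 3 X ∧ St P A X' ∧
  Cy P 5 X' ∧ St P x X ∧ St P x X'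

variable (P) in
/-- the lists differ, the entry of `x` being smaller -/
def MI (x y : Tm) : Prop := ∃ Y Y' X X', Md P y Y ∧ Mz P y Y' ∧ St P Y X ∧ Cy P 3 X ∧ St P Y' X' ∧
  Cy P 5 X' ∧ ((St P x X ∧ St P x X') ∨ ∃ A B, St P A X ∧ St P A X' ∧ Cy P 2 A ∧ St P B X ∧
    St P B X' ∧ Cy P 7 B ∧ St P x A ∧ St P x B)

variable (P) in
/-- the lists differ, the entry of `x` being larger -/
def MII (x y : Tm) : Prop := ∃ Y Y' X X', Md P y Y ∧ Mz P y Y' ∧ Md P x X ∧ Mz P x X' ∧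
  St P X Y ∧ St P X' Y'

variable (P) in
/-- lists -/
def H (x : Tm) : Prop := ∀ y, G P y ∨ EE P y ∨ x = y ∨ Sx P x y ∨ Sy P y x ∨ MI P x y ∨ MII P x y

/-! ### Numerals -/

theorem G_hst {l : List ℕ} (h : G P (hst l)) : False := by
  rcases h with h | h | h | h | h <;> exact Cy_hst h

theorem G_num {n : ℕ} (h : G P (num n)) : False := by
  rcases h with h | h | h | h | h <;> exact Cy_num h

theorem G_s {t : Tm} (h : G P t) : G P (s t) := by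
  rcases h with h | h | h | h | h
  · exact Or.inl (Wk_s h)
  · exact Or.inr (Or.inl (Wk_s h))
  · exact Or.inr (Or.inr (Or.inl (Wk_s h)))
  · exact Or.inr (Or.inr (Or.inr (Or.inl (Wk_s h))))
  · exact Or.inr (Or.inr (Or.inr (Or.inr (Wk_s h))))

theorem G_cl {t : Tm} (u : Tm) (h : G P t) : G P (c t u) := by
  rcases h with h | h | h | h | h
  · exact Or.inl (Wk_cl u h)
  · exact Or.inr (Or.inl (Wk_cl u h))
  · exact Or.inr (Or.inr (Or.inl (Wk_cl u h)))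
  · exact Or.inr (Or.inr (Or.inr (Or.inl (Wk_cl u h))))
  · exact Or.inr (Or.inr (Or.inr (Or.inr (Wk_cl u h))))

theorem G_cr {t : Tm} (u : Tm) (h : G P t) : G P (c u t) := by
  rcases h with h | h | h | h | h
  · exact Or.inl (Wk_cr u h)
  · exact Or.inr (Or.inl (Wk_cr u h))
  · exact Or.inr (Or.inr (Or.inl (Wk_cr u h)))
  · exact Or.inr (Or.inr (Or.inr (Or.inl (Wk_cr u h))))
  · exact Or.inr (Or.inr (Or.inr (Or.inr (Wk_cr u h))))

theorem num_or_s (n : ℕ) : num n = z ∨ ∃ v, num n = s v := by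
  cases n with
  | zero => exact Or.inl rfl
  | succ n => exact Or.inr ⟨_, rfl⟩

theorem hst_e_or_c (l : List ℕ) : hst l = e ∨ ∃ t u, hst l = c t u := by
  cases l with
  | nil => exact Or.inl rfl
  | cons m l => exact Or.inr ⟨_, _, rfl⟩

theorem G_or (t : Tm) : G P t ∨ (∃ n, t = num n) ∨ ∃ l, t = hst l := by
  induction t with
  | z => exact Or.inr (Or.inl ⟨0, rfl⟩)
  | e => exact Or.inr (Or.inr ⟨[], rfl⟩)
  | a i =>
    left
    rcases rs_any i with h | h | h | h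
    · exact Or.inr (Or.inl (Cy_of_rs [] h))
    · exact Or.inr (Or.inr (Or.inl (Cy_of_rs [] h)))
    · exact Or.inr (Or.inr (Or.inr (Or.inl (Cy_of_rs [] h))))
    · exact Or.inr (Or.inr (Or.inr (Or.inr (Cy_of_rs [] h))))
  | s t ih =>
    rcases ih with h | ⟨n, rfl⟩ | ⟨l, rfl⟩
    · exact Or.inl (G_s h)
    · exact Or.inr (Or.inl ⟨n + 1, rfl⟩)
    · exact Or.inl (Or.inl ⟨_, .ls (hst_e_or_c l), rfl⟩)
  | c t u ih1 ih2 =>
    rcases ih1 with h | ⟨n, rfl⟩ | ⟨l, rfl⟩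
    · exact Or.inl (G_cl _ h)
    · rcases ih2 with h | ⟨m, rfl⟩ | ⟨l, rfl⟩
      · exact Or.inl (G_cr _ h)
      · refine Or.inl (Or.inl ⟨_, .lc ?_, rfl⟩)
        exact Or.inr (Or.inr (num_or_s m))
      · exact Or.inr (Or.inr ⟨n :: l, rfl⟩)
    · refine Or.inl (Or.inl ⟨_, .lc ?_, rfl⟩)
      rcases hst_e_or_c l with h | h
      · exact Or.inl h
      · exact Or.inr (Or.inl h)

theorem HH_hst (l : List ℕ) : HH P (hst l) :=
  ⟨pre l (a 2), St_pre l .e2, Cy_of_rs l (by decide)⟩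

theorem HH_num {n : ℕ} (h : HH P (num n)) : False := by
  obtain ⟨X, h1, h2⟩ := h
  obtain ⟨m, _, rfl⟩ := succ_num h1
  exact Cy_num h2

theorem hst_ne_num (l : List ℕ) (n : ℕ) : hst l ≠ num n := by
  intro h
  rcases hst_e_or_c l with h1 | ⟨t, u, h1⟩
  · exact num_ne_e n (h.symm.trans h1)
  · exact num_ne_c n _ _ (h.symm.trans h1)

theorem EE_num (n : ℕ) : EE P (num n) := by
  intro t
  rcases G_or (P := P) t with h | ⟨m, rfl⟩ | ⟨l, rfl⟩
  · exact Or.inl h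
  · rcases lt_trichotomy n m with h | rfl | h
    · exact Or.inr (Or.inr (Or.inr (Or.inr (St_num h))))
    · exact Or.inr (Or.inr (Or.inl rfl))
    · exact Or.inr (Or.inr (Or.inr (Or.inl (St_num h))))
  · exact Or.inr (Or.inl (HH_hst l))

theorem EE_iff {y : Tm} : EE P y ↔ ∃ n, y = num n := by
  constructor
  · intro h
    rcases h (num (W y + 1)) with h1 | h1 | h1 | h1 | h1
    · exact (G_num h1).elim
    · exact (HH_num h1).elim
    · exact ⟨_, h1⟩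
    · exfalso
      have := W_le h1
      rw [W_num] at this
      omega
    · obtain ⟨m, _, h2⟩ := succ_num h1
      exact ⟨m, h2⟩
  · rintro ⟨n, rfl⟩
    exact EE_num n

theorem EE_hst {l : List ℕ} (h : EE P (hst l)) : False := by
  obtain ⟨n, h⟩ := EE_iff.1 h
  exact hst_ne_num _ _ h

/-! ### The relations on lists -/

theorem Md_hst {l : List ℕ} {Y : Tm} (h : Md P (hst l) Y) : ∃ p, p <+: l ∧ Y = pre p (a 2) := by
  obtain ⟨h1, h2 | ⟨A, h2, h3, h4⟩⟩ := h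
  · exact ⟨l, List.prefix_refl _, hst3 h2 h1⟩
  · obtain ⟨p, h5, rfl⟩ := hst2 h2 h3
    exact ⟨p, h5.pre, pre03 h4 h1⟩

theorem Mz_hst {l : List ℕ} {Y : Tm} (h : Mz P (hst l) Y) :
    ∃ p, p <+: l ∧ (Y = pre p (a 5) ∨ Y = pre p (a 9)) := by
  obtain ⟨h1, h2 | ⟨A, h2, h3, h4⟩⟩ := h
  · rcases hst5 h2 h1 with h5 | ⟨p, q, rfl, _, _, h6⟩
    · exact ⟨l, List.prefix_refl _, Or.inl h5⟩
    · exact ⟨p, ⟨q, rfl⟩, Or.inr h6⟩
  · obtain ⟨p, h5, rfl⟩ := hst2 h2 h3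
    exact ⟨p, h5.pre, Or.inl (pre05 h4 h1)⟩

theorem Cy2 (l : List ℕ) : Cy P 2 (pre l (a 0)) := Cy_of_rs l (by decide)
theorem Cy7 (l : List ℕ) : Cy P 7 (pre l (a 10)) := Cy_of_rs l (by decide)
theorem Cy3 (l : List ℕ) : Cy P 3 (pre l (a 2)) := Cy_of_rs l (by decide)
theorem Cy5 (l : List ℕ) : Cy P 5 (pre l (a 5)) := Cy_of_rs l (by decide)
theorem Cy5' (l : List ℕ) : Cy P 5 (pre l (a 9)) := Cy_of_rs l (by decide)

theorem Md_of {p l : List ℕ} (h : p <+: l) : Md P (hst l) (pre p (a 2)) := by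
  refine ⟨Cy3 p, ?_⟩
  obtain ⟨q, rfl⟩ := h
  by_cases hq : q = []
  · subst hq
    rw [List.append_nil]
    exact Or.inl (St_pre _ .e2)
  · exact Or.inr ⟨pre p (a 0), (St_cut hq e).2.1, Cy2 p, St_cg p (by decide)⟩

theorem Mz_of {p l : List ℕ} (h : p <+: l) : Mz P (hst l) (pre p (a 5)) := by
  refine ⟨Cy5 p, ?_⟩
  obtain ⟨q, rfl⟩ := h
  by_cases hq : q = []
  · subst hq
    rw [List.append_nil]
    exact Or.inl (St_pre _ .e5)
  · exact Or.inr ⟨pre p (a 0), (St_cut hq e).2.1, Cy2 p, St_cg p (by decide)⟩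

theorem Sx_of {l l' : List ℕ} (h : PP l' l) : Sx P (hst l) (hst l') := by
  obtain ⟨q, hq, rfl⟩ := h
  exact ⟨pre l' (a 0), pre l' (a 2), (St_cut hq e).2.1, Cy2 _, St_cg _ (by decide), Cy3 _,
    St_pre _ .e2⟩

theorem pre_inj {l l' : List ℕ} {g : Tm} (hg : Lf g) (h : pre l g = pre l' g) : l = l' := by
  induction l generalizing l' with
  | nil => cases l' with
    | nil => rfl
    | cons n l' => rcases hg with rfl | ⟨i, rfl⟩ <;> simp at h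
  | cons m l ih => cases l' with
    | nil => rcases hg with rfl | ⟨i, rfl⟩ <;> simp at h
    | cons n l' =>
      simp only [pre_cons, Tm.c.injEq] at h
      rw [num_inj h.1, ih h.2]

theorem pre_inj' {l l' : List ℕ} {i j : Fin 17} (h : pre l (a i) = pre l' (a j)) :
    l = l' ∧ i = j := by
  have h1 : i = j := by
    have := congrArg fin h
    rw [fin_pre, fin_pre] at this
    simpa [fin] using this
  subst h1
  exact ⟨pre_inj (Or.inr ⟨i, rfl⟩) h, rfl⟩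

theorem Sx_hst {l l' : List ℕ} : Sx P (hst l) (hst l') ↔ PP l' l := by
  constructor
  · rintro ⟨A, X, h1, h2, h3, h4, h5⟩
    obtain ⟨p, hp, rfl⟩ := hst2 h1 h2
    have e1 := pre03 h3 h4
    have e2 := hst3 h5 h4
    rw [e1] at e2
    rw [← (pre_inj' e2).1]
    exact hp
  · exact Sx_of

theorem Sy_of {l l' : List ℕ} (h : PP l' l) : Sy P (hst l) (hst l') := by
  obtain ⟨q, hq, rfl⟩ := h
  exact ⟨pre l' (a 0), pre l' (a 2), pre l' (a 5), (St_cut hq e).2.1, Cy2 _,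
    St_cg _ (by decide), Cy3 _, St_cg _ (by decide), Cy5 _, St_pre _ .e2, St_pre _ .e5⟩

theorem of_Sy {l : List ℕ} {x : Tm} (h : Sy P (hst l) x) :
    ∃ p g, PP p l ∧ (g = e ∨ g = a 0 ∨ g = a 10) ∧ x = pre p g := by
  obtain ⟨A, X, X', h1, h2, h3, h4, h5, h6, h7, h8⟩ := h
  obtain ⟨p, hp, rfl⟩ := hst2 h1 h2
  obtain rfl := pre03 h3 h4
  obtain rfl := pre05 h5 h6
  obtain ⟨_, g, hg, rfl⟩ := two_marks h7 h8 (Or.inl rfl) (Or.inl rfl)
  exact ⟨p, g, hp, hg, rfl⟩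

theorem of_MI {l : List ℕ} {x : Tm} (h : MI P x (hst l)) :
    ∃ p p' v, p <+: l ∧ NC p p' ∧ x = pre p' v := by
  obtain ⟨Y, Y', X, X', h1, h2, h3, h4, h5, h6, h7⟩ := h
  obtain ⟨p, hp, rfl⟩ := Md_hst h1
  obtain ⟨q, hq, hY'⟩ := Mz_hst h2
  have hX' : ∃ L' j, X' = pre L' (a j) ∧ (j = 5 ∨ j = 6 ∨ j = 9) := by
    rcases hY' with rfl | rfl
    · rcases pre55 h5 h6 with ⟨l', _, h8⟩ | h8
      · exact ⟨l', 5, h8, Or.inl rfl⟩
      · exact ⟨q, 6, h8, Or.inr (Or.inl rfl)⟩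
    · rcases pre95 h5 h6 with ⟨l', _, h8⟩ | h8
      · exact ⟨l', 9, h8, Or.inr (Or.inr rfl)⟩
      · exact ⟨q, 5, h8, Or.inl rfl⟩
  obtain ⟨L', j, rfl, hj⟩ := hX'
  have key : ∀ x, St P x X → St P x (pre L' (a j)) →
      ∃ p' g, NC p p' ∧ X = pre p' (a 2) ∧ (g = e ∨ g = a 0 ∨ g = a 10) ∧ x = pre p' g := by
    intro x h8 h9
    rcases pre23 h3 h4 with ⟨p', hp', rfl⟩ | rfl
    · obtain ⟨_, g, hg, rfl⟩ := two_marks h8 h9 (Or.inl rfl) hj
      exact ⟨p', g, hp', rfl, hg, rfl⟩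
    · exact absurd (two_marks h8 h9 (Or.inr rfl) hj).1 (by decide)
  rcases h7 with ⟨h8, h9⟩ | ⟨A, B, h8, h9, h10, h11, h12, h13, h14, h15⟩
  · obtain ⟨p', g, h10, _, _, h11⟩ := key x h8 h9
    exact ⟨p, p', g, hp, h10, h11⟩
  · obtain ⟨p', g, hp', e1, hg, rfl⟩ := key A h8 h9
    obtain ⟨p'', g', hp'', e2, hg', rfl⟩ := key B h11 h12
    rw [e1] at e2
    obtain rfl := (pre_inj' e2).1
    have e3 : g = a 0 := by
      rcases hg with rfl | rfl | rfl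
      · exact (Cy_hst h10).elim
      · rfl
      · exact absurd (Cy_mark h10) m10_2
    have e4 : g' = a 10 := by
      rcases hg' with rfl | rfl | rfl
      · exact (Cy_hst h13).elim
      · exact absurd (Cy_mark h13) m0_7
      · rfl
    subst e3
    subst e4
    obtain ⟨t, u, rfl⟩ := two_cuts h14 h15
    exact ⟨p, p', _, hp, hp', rfl⟩

theorem MI_of {p q q' : List ℕ} {m n : ℕ} (h : m < n) :
    MI P (hst (p ++ m :: q)) (hst (p ++ n :: q')) := by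
  have hn : (p ++ [n]) <+: (p ++ n :: q') := ⟨q', by simp⟩
  have hNC : NC (p ++ [n]) (p ++ [m]) := ⟨p, n, [], m, rfl, h, rfl⟩
  refine ⟨_, _, pre (p ++ [m]) (a 2), pre (p ++ [m]) (a 5), Md_of hn, Mz_of hn, St_NC _ hNC,
    Cy3 _, St_NC _ hNC, Cy5 _, ?_⟩
  by_cases hq : q = []
  · subst hq
    exact Or.inl ⟨St_pre _ .e2, St_pre _ .e5⟩
  · right
    have h2 := St_cut (P := P) (p := p ++ [m]) hq e
    rw [show p ++ [m] ++ q = p ++ m :: q by simp] at h2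
    exact ⟨pre (p ++ [m]) (a 0), pre (p ++ [m]) (a 10), St_cg _ (by decide), St_cg _ (by decide),
      Cy2 _, St_cg _ (by decide), St_cg _ (by decide), Cy7 _, h2.2.1, h2.2.2⟩

theorem MII_of {p q q' : List ℕ} {m n : ℕ} (h : n < m) :
    MII P (hst (p ++ m :: q)) (hst (p ++ n :: q')) := by
  have hn : (p ++ [n]) <+: (p ++ n :: q') := ⟨q', by simp⟩
  have hm : (p ++ [m]) <+: (p ++ m :: q) := ⟨q, by simp⟩
  have hNC : NC (p ++ [m]) (p ++ [n]) := ⟨p, m, [], n, rfl, h, rfl⟩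
  exact ⟨_, _, _, _, Md_of hn, Mz_of hn, Md_of hm, Mz_of hm, St_NC _ hNC, St_NC _ hNC⟩

theorem pre_prefix {l p : List ℕ} {g v : Tm} (hg : ∀ m u, g ≠ c (num m) u)
    (h : pre l g = pre p v) : ∃ r, l = p ++ r ∧ v = pre r g := by
  induction p generalizing l with
  | nil => exact ⟨l, rfl, h.symm⟩
  | cons m p ih => cases l with
    | nil => exact absurd h (hg _ _)
    | cons n l =>
      simp only [pre_cons, Tm.c.injEq] at h
      obtain ⟨r, rfl, h2⟩ := ih h.2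
      exact ⟨r, by rw [num_inj h.1]; rfl, h2⟩

theorem Nc_e : ∀ m u, e ≠ c (num m) u := by simp

theorem not_MI {l l' : List ℕ} {g : Tm} (hg : ∀ m u, g ≠ c (num m) u) (h : MI P (pre l g) (hst l'))
    (h' : l <+: l') : False := by
  obtain ⟨p, p', v, h1, h2, h3⟩ := of_MI h
  obtain ⟨r, rfl, _⟩ := pre_prefix hg h3
  exact NC_absurd h2 h1 ((List.prefix_append _ _).trans h')

theorem not_MI' {l l' : List ℕ} {g : Tm} (hg : ∀ m u, g ≠ c (num m) u)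
    (h : MI P (pre l g) (hst l')) (h' : l' <+: l) : False := by
  obtain ⟨p, p', v, h1, h2, h3⟩ := of_MI h
  obtain ⟨r, rfl, _⟩ := pre_prefix hg h3
  exact NC_absurd h2 (h1.trans h') (List.prefix_append _ _)

theorem MI_hst {l l' : List ℕ} (h : MI P (hst l) (hst l')) : Dv l l' := by
  obtain ⟨p, p', v, h1, h2, h3⟩ := of_MI h
  obtain ⟨r, rfl, _⟩ := pre_prefix Nc_e h3
  exact (Dv_of_NC h2 h1 (List.prefix_append _ _)).symm

theorem MII_hst {l l' : List ℕ} (h : MII P (hst l) (hst l')) : Dv l l' := by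
  obtain ⟨Y, Y', X, X', h1, h2, h3, h4, h5, h6⟩ := h
  obtain ⟨p, hp, rfl⟩ := Md_hst h1
  obtain ⟨q, hq, rfl⟩ := Md_hst h3
  rcases pre23 h5 (Cy3 p) with ⟨l', h7, h8⟩ | h8
  · rw [(pre_inj' h8).1] at hp
    exact Dv_of_NC h7 hq hp
  · exact absurd (pre_inj' h8).2 (by decide)

theorem MI_or_MII {l l' : List ℕ} (h : Dv l l') :
    MI P (hst l) (hst l') ∨ MII P (hst l) (hst l') := by
  obtain ⟨p, m, n, q, q', hmn, rfl, rfl⟩ := h
  rcases lt_or_gt_of_ne hmn with h | h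
  · exact Or.inl (MI_of h)
  · exact Or.inr (MII_of h)

end Pool.Agent.R569.OSR
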