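import Pool.Agent.R569.OSR.Defs

set_option autoImplicit false

/-!
# Lists are exactly the solutions of a positive formula
-/

namespace Pool.Agent.R569.OSR

open Tm

variable {P : List Pat}

/-- entries of a spine -/
def elt : ℕ → Tm → Option Tm
  | 0, c t _ => some t
  | n + 1, c _ u => elt n u
  | _, _ => none

theorem elt_step {n : ℕ} {t t' v' : Tm} (h : St P t t') (he : elt n t' = some v') :
    ∃ v, elt n t = some v ∧ W v' ≤ W v := by
  induction n generalizing t t' with
  | zero =>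
    cases t' with
    | c u' w' =>
      simp only [elt, Option.some.injEq] at he
      subst he
      rcases pred_c h with ⟨rfl, _⟩ | ⟨u, rfl, h1⟩ | ⟨v, rfl, h1⟩
      · exact ⟨_, rfl, le_rfl⟩
      · exact ⟨_, rfl, W_le h1⟩
      · exact ⟨_, rfl, le_rfl⟩
    | z => simp [elt] at he
    | e => simp [elt] at he
    | a i => simp [elt] at he
    | s t => simp [elt] at he
  | succ n ih =>
    cases t' with
    | c u' w' =>
      simp only [elt] at he
      rcases pred_c h with ⟨rfl, _⟩ | ⟨u, rfl, h1⟩ | ⟨v, rfl, h1⟩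
      · exact ⟨_, he, le_rfl⟩
      · exact ⟨_, he, le_rfl⟩
      · exact ih h1 he
    | z => simp [elt] at he
    | e => simp [elt] at he
    | a i => simp [elt] at he
    | s t => simp [elt] at he

theorem elt_pre (p : List ℕ) (t u : Tm) : elt p.length (pre p (c t u)) = some t := by
  induction p with
  | nil => rfl
  | cons m p ih => simpa [elt] using ih

theorem elt_mem (p q : List ℕ) (k : ℕ) (g : Tm) :
    elt p.length (pre (p ++ k :: q) g) = some (num k) := by
  rw [pre_append, pre_cons, elt_pre]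

theorem not_entry {p q : List ℕ} {k : ℕ} {g Z : Tm}
    (h : ∃ w, elt p.length (pre (p ++ k :: q) g) = some w ∧ W (sn (k + 1) Z) ≤ W w) : False := by
  obtain ⟨w, h1, h2⟩ := h
  rw [elt_mem, Option.some.injEq] at h1
  subst h1
  rw [W_sn, W_num] at h2
  omega

theorem chainY {l p : List ℕ} {g X : Tm} (hg : ∀ m u, g ≠ c (num m) u) (hp : p <+: l)
    (h1 : St P X (pre p (a 2))) (h2 : Cy P 3 X)
    (h3 : St P (pre l g) X ∨ ∃ A, St P (pre l g) A ∧ Cy P 2 A ∧ St P A X) :
    l = p ∧ g = a 3 := by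
  have key : ∀ p1 k q Z v, p = p1 ++ k :: q → St P (pre l g) (pre p1 (c (sn (k + 1) Z) v)) →
      False := by
    rintro p1 k q Z v rfl h4
    obtain ⟨r, rfl⟩ := hp
    have h5 := elt_step h4 (elt_pre p1 (sn (k + 1) Z) v)
    rw [List.append_assoc, List.cons_append] at h5
    exact not_entry h5
  rcases pred_pre h1 with ⟨h4, _⟩ | ⟨h4, _⟩ | ⟨_, rfl⟩ | ⟨j, h4, rfl⟩ | ⟨p1, k, q, Z, h4, rfl⟩
  · exact absurd h4 (by decide)
  · exact absurd h4 (by decide)
  · exact (Cy_hst h2).elim
  · have h5 := Cy_mark h2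
    have : ∀ j, cg j 2 = true → j ∈ rs 3 j → j = 4 := by decide
    obtain rfl := this j h4 h5
    have c0 : ∀ j, cg j 4 = true → j = 3 := by decide
    rcases h3 with h3 | ⟨A, h3, hA, h6⟩
    · rcases pred_pre h3 with ⟨h4, _⟩ | ⟨h4, _⟩ | ⟨h4, _⟩ | ⟨j, h4, h7⟩ | ⟨p1, k, q, Z, h4, h7⟩
      · exact absurd h4 (by decide)
      · exact absurd h4 (by decide)
      · exact absurd h4 (by decide)
      · obtain rfl := c0 j h4
        obtain ⟨r, rfl, h8⟩ := pre_prefix hg h7
        cases r with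
        | nil => exact ⟨by simp, h8.symm⟩
        | cons m r => simp at h8
      · exfalso
        subst h4
        obtain ⟨r, rfl⟩ := hp
        refine not_entry (p := p1) (q := q ++ r) (k := k) (g := g) (Z := Z)
          ⟨sn (k + 1) Z, ?_, le_rfl⟩
        have h8 := congrArg (elt p1.length) h7
        rw [elt_pre] at h8
        simpa using h8
    · exfalso
      rcases pred_pre h6 with ⟨h4, _⟩ | ⟨h4, _⟩ | ⟨h4, _⟩ | ⟨j, h4, rfl⟩ | ⟨p1, k, q, Z, h4, rfl⟩
      · exact absurd h4 (by decide)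
      · exact absurd h4 (by decide)
      · exact absurd h4 (by decide)
      · obtain rfl := c0 j h4
        exact absurd (Cy_mark hA) (by decide)
      · exact key _ _ _ _ _ h4 h3
  · exfalso
    rcases h3 with h3 | ⟨A, h3, hA, h6⟩
    · exact key _ _ _ _ _ h4 h3
    · subst h4
      obtain ⟨r, rfl⟩ := hp
      obtain ⟨v, h7, h8⟩ := elt_step h6 (elt_pre p1 (sn (k + 1) Z) _)
      obtain ⟨w, h9, h10⟩ := elt_step h3 h7
      rw [List.append_assoc, List.cons_append] at h9
      exact not_entry ⟨w, h9, h8.trans h10⟩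

theorem not_MII {l l' : List ℕ} {g : Tm} (hg : ∀ m u, g ≠ c (num m) u)
    (h : MII P (pre l g) (hst l')) (h' : l' = l ∨ ∃ m, l' = l ++ [m] ∧ W (pre l g) < 2 * m) :
    g = a 3 ∧ False := by
  have hll : l <+: l' := by
    rcases h' with rfl | ⟨m, rfl, _⟩
    · exact List.prefix_refl _
    · exact List.prefix_append _ _
  obtain ⟨Y, Y', X, X', h1, h2, h3, h4, h5, h6⟩ := h
  obtain ⟨p, hp, rfl⟩ := Md_hst h1
  have hW : W (pre p (a 2)) ≤ W (pre l g) := by
    refine (W_le h5).trans ?_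
    obtain ⟨_, h7 | ⟨A, h7, _, h8⟩⟩ := h3
    · exact W_le h7
    · exact (W_le h8).trans (W_le h7)
  have hpl : p <+: l := by
    rcases h' with rfl | ⟨m, rfl, hm⟩
    · exact hp
    · rw [List.prefix_concat_iff] at hp
      rcases hp with rfl | hp
      · exfalso
        rw [W_pre] at hW
        simp at hW
        omega
      · exact hp
  obtain ⟨rfl, rfl⟩ := chainY hg hpl h5 h3.1 h3.2
  refine ⟨rfl, ?_⟩
  obtain ⟨q, hq, hY'⟩ := Mz_hst h2
  obtain ⟨h7, h8 | ⟨A, h8, h9, h10⟩⟩ := h4
  · rcases mark_pre h8 h7 with ⟨_, _, _, h9⟩ | ⟨_, _, _, h9⟩ | ⟨_, _, _, h9⟩ | ⟨j, h9, _, h10⟩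
    · exact absurd h9 (by decide)
    · exact absurd h9 (by decide)
    · exact absurd h9 (by decide)
    · have : ∀ j, cg 3 j = true → j ∈ rs 5 j → False := by decide
      exact this j h9 h10
  · rcases mark_pre h8 h9 with ⟨_, _, _, h11⟩ | ⟨p1, h11, rfl, _⟩ | ⟨_, _, _, h11⟩ |
      ⟨j, h11, _, h12⟩
    · exact absurd h11 (by decide)
    · obtain rfl := pre05 h10 h7
      have h12 : ∃ l1, NC p1 l1 ∧ l1 <+: l' := by
        rcases hY' with rfl | rfl
        · rcases pre55 h6 (Cy5 _) with ⟨l1, h13, h14⟩ | h14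
          · exact ⟨l1, h13, (pre_inj' h14).1 ▸ hq⟩
          · exact absurd (pre_inj' h14).2 (by decide)
        · rcases pre55 h6 (Cy5' _) with ⟨l1, h13, h14⟩ | h14
          · exact ⟨l1, h13, (pre_inj' h14).1 ▸ hq⟩
          · exact absurd (pre_inj' h14).2 (by decide)
      obtain ⟨l1, h13, h14⟩ := h12
      exact NC_absurd h13 (h11.pre.trans hll) h14
    · exact absurd h11 (by decide)
    · have : ∀ j, cg 3 j = true → j ∈ rs 2 j → False := by decide
      exact this j h11 h12

theorem decomp (x : Tm) : ∃ l g, x = pre l g ∧ ∀ m u, g ≠ c (num m) u := by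
  induction x with
  | z => exact ⟨[], z, rfl, by simp⟩
  | e => exact ⟨[], e, rfl, by simp⟩
  | a i => exact ⟨[], a i, rfl, by simp⟩
  | s t _ => exact ⟨[], s t, rfl, by simp⟩
  | c t u _ ih =>
    by_cases h : ∃ m, t = num m
    · obtain ⟨m, rfl⟩ := h
      obtain ⟨l, g, rfl, hg⟩ := ih
      exact ⟨m :: l, g, rfl, hg⟩
    · refine ⟨[], c t u, rfl, ?_⟩
      intro m v hh
      rw [Tm.c.injEq] at hh
      exact h ⟨m, hh.1⟩

theorem pre_cancel {l : List ℕ} {g g' : Tm} (h : pre l g = pre l g') : g = g' := by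
  induction l with
  | nil => exact h
  | cons m l ih => exact ih (by simpa using h)

theorem not_Sx_mark {l : List ℕ} {i : Fin 17} (hi : i = 0 ∨ i = 10)
    (h : Sx P (pre l (a i)) (hst l)) : False := by
  obtain ⟨A, X, h1, h2, h3, h4, h5⟩ := h
  obtain rfl := hst3 h5 h4
  have e1 : W (pre l (a i)) = W (pre l (a 2)) := by rw [W_pre, W_pre]; rfl
  have e2 := W_le h1
  have e3 := W_le h3
  obtain ⟨j, hj, rfl⟩ := St_W h1 (by omega)
  obtain ⟨k, hk, h6⟩ := St_W h3 (by rw [W_pre, W_pre]; rfl)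
  have h7 := (pre_inj' h6).2
  subst h7
  have : ∀ i j, (i = 0 ∨ i = 10) → cg i j = true → cg j 2 = true → j ∈ rs 2 j → False := by
    decide
  exact this i j hi hj hk (Cy_mark h2)

theorem H_hst (l : List ℕ) : H P (hst l) := by
  intro y
  rcases G_or (P := P) y with h | ⟨n, rfl⟩ | ⟨l', rfl⟩
  · exact Or.inl h
  · exact Or.inr (Or.inl (EE_num n))
  · rcases compare l l' with rfl | h | h | h
    · exact Or.inr (Or.inr (Or.inl rfl))
    · exact Or.inr (Or.inr (Or.inr (Or.inl (Sx_of h))))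
    · exact Or.inr (Or.inr (Or.inr (Or.inr (Or.inl (Sy_of h)))))
    · rcases MI_or_MII (P := P) h with h | h
      · exact Or.inr (Or.inr (Or.inr (Or.inr (Or.inr (Or.inl h)))))
      · exact Or.inr (Or.inr (Or.inr (Or.inr (Or.inr (Or.inr h)))))

theorem H_iff {x : Tm} : H P x ↔ ∃ l, x = hst l := by
  constructor
  · intro h
    obtain ⟨l, g, rfl, hg⟩ := decomp x
    by_contra hx
    have hge : g ≠ e := by
      rintro rfl
      exact hx ⟨l, rfl⟩
    by_cases h0 : g = a 0 ∨ g = a 10
    · rcases h (hst l) with h1 | h1 | h1 | h1 | h1 | h1 | h1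
      · exact G_hst h1
      · exact EE_hst h1
      · exact hge (pre_cancel h1)
      · rcases h0 with rfl | rfl
        · exact not_Sx_mark (Or.inl rfl) h1
        · exact not_Sx_mark (Or.inr rfl) h1
      · obtain ⟨p, g', ⟨q, hq, rfl⟩, hg', h3⟩ := of_Sy h1
        obtain ⟨r, h4, h5⟩ := pre_prefix hg h3
        rw [List.append_cancel_left_eq] at h4
        subst h4
        obtain ⟨t, u, h6⟩ := pre_ne_nil hq g
        rw [h6] at h5
        subst h5
        simp at hg'
      · exact not_MI hg h1 (List.prefix_refl _)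
      · exact (not_MII hg h1 (Or.inl rfl)).2
    · rcases h (hst (l ++ [W (pre l g) + 1])) with h1 | h1 | h1 | h1 | h1 | h1 | h1
      · exact G_hst h1
      · exact EE_hst h1
      · obtain ⟨r, h2, _⟩ := pre_prefix hg h1
        have := congrArg List.length h2
        simp at this
      · obtain ⟨A, X, h2, h3, h4, h5, h6⟩ := h1
        obtain rfl := hst3 h6 h5
        have e1 := W_le h2
        have e2 := W_le h4
        have e3 : W (pre (l ++ [W (pre l g) + 1]) (a 2)) ≤ W (pre l g) := e2.trans e1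
        rw [W_pre (l ++ _)] at e3
        simp only [List.sum_append, List.sum_cons, List.sum_nil, List.length_append] at e3
        omega
      · obtain ⟨p, g', hp, hg', h3⟩ := of_Sy h1
        obtain ⟨r, h4, h5⟩ := pre_prefix hg h3
        cases r with
        | nil =>
          rw [pre_nil] at h5
          subst h5
          rcases hg' with h6 | h6
          · exact hge h6
          · exact h0 h6
        | cons m r =>
          subst h5
          simp at hg'
      · exact not_MI hg h1 (List.prefix_append _ _)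
      · exact (not_MII hg h1 (Or.inr ⟨_, rfl, by omega⟩)).2
  · rintro ⟨l, rfl⟩
    exact H_hst l

/-! ### Locally good lists -/

variable (P) in
/-- in the list `x` a window begins where the list `y` ends -/
def Chk (x y : Tm) : Prop := ∃ X1 A B, H P X1 ∧ (x = X1 ∨ Sx P x X1) ∧ St P X1 A ∧ Cy P 5 A ∧
  St P A B ∧ Cy P 5 B ∧ St P y B

variable (P) in
/-- `t` is the beginning of a locally good list -/
def Good (t : Tm) : Prop := ∃ x, H P x ∧ (x = t ∨ Sx P x t) ∧
  ∀ y, G P y ∨ EE P y ∨ x = y ∨ Sx P y x ∨ MI P x y ∨ MII P x y ∨ Chk P x y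

theorem Chk_hst {l l' : List ℕ} (hl : l' <+: l) (h : Chk P (hst l) (hst l')) :
    ∃ w, w ≠ [] ∧ WinN P w ∧ l' ++ w <+: l := by
  obtain ⟨X1, A, B, h1, h2, h3, h4, h5, h6, h7⟩ := h
  obtain ⟨l1, rfl⟩ := H_iff.1 h1
  have hl1 : l1 <+: l := by
    rcases h2 with h2 | h2
    · rw [pre_inj (Or.inl rfl) h2]
    · exact (Sx_hst.1 h2).pre
  rcases hst5 h3 h4 with rfl | ⟨p, q, rfl, hq, hw, rfl⟩
  · exfalso
    rcases pre55 h5 h6 with ⟨l2, h8, rfl⟩ | rfl
    · rcases hst5 h7 h6 with h9 | ⟨p, q, rfl, hq, hw, h9⟩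
      · obtain ⟨rfl, _⟩ := pre_inj' h9
        exact NC_absurd h8 hl1 hl
      · exact absurd (pre_inj' h9).2 (by decide)
    · rcases hst5 h7 h6 with h9 | ⟨p, q, rfl, hq, hw, h9⟩
      · exact absurd (pre_inj' h9).2 (by decide)
      · exact absurd (pre_inj' h9).2 (by decide)
  · rcases pre95 h5 h6 with ⟨l2, h8, rfl⟩ | rfl
    · exfalso
      rcases hst5 h7 h6 with h9 | ⟨p', q', rfl, hq', hw', h9⟩
      · exact absurd (pre_inj' h9).2 (by decide)
      · obtain ⟨rfl, _⟩ := pre_inj' h9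
        exact NC_absurd h8 ((List.prefix_append _ _).trans hl1) ((List.prefix_append _ _).trans hl)
    · rcases hst5 h7 h6 with h9 | ⟨p', q', rfl, hq', hw', h9⟩
      · obtain ⟨rfl, _⟩ := pre_inj' h9
        exact ⟨q, hq, hw, hl1⟩
      · exact absurd (pre_inj' h9).2 (by decide)

theorem Chk_of {l l' w : List ℕ} (hw : w ≠ []) (hW : WinN P w) (h : l' ++ w <+: l) :
    Chk P (hst l) (hst l') := by
  refine ⟨hst (l' ++ w), pre l' (a 9), pre l' (a 5), H_hst _, ?_, St_win hw hW, Cy5' _,
    St_cg _ (by decide), Cy5 _, St_pre _ .e5⟩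
  by_cases h1 : l' ++ w = l
  · rw [h1]
    exact Or.inl rfl
  · exact Or.inr (Sx_of (PP_iff.2 ⟨h, h1⟩))

theorem Good_hst {l : List ℕ} : Good P (hst l) ↔ ∃ l', LG P l' ∧ l <+: l' := by
  constructor
  · rintro ⟨x, h1, h2, h3⟩
    obtain ⟨lx, rfl⟩ := H_iff.1 h1
    have hlx : l <+: lx := by
      rcases h2 with h2 | h2
      · rw [pre_inj (Or.inl rfl) h2]
      · exact (Sx_hst.1 h2).pre
    refine ⟨lx, ?_, hlx⟩
    rintro q ⟨ly, rfl⟩ hq
    have hpp : PP ly (ly ++ q) := ⟨q, hq, rfl⟩
    rcases h3 (hst ly) with h | h | h | h | h | h | h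
    · exact (G_hst h).elim
    · exact (EE_hst h).elim
    · exact absurd (pre_inj (Or.inl rfl) h).symm (PP_iff.1 hpp).2
    · have := (Sx_hst.1 h).lt
      have := hpp.lt
      omega
    · exact absurd hpp.pre (MI_hst h).symm.not_prefix
    · exact absurd hpp.pre (MII_hst h).symm.not_prefix
    · obtain ⟨w, h5, h6, h7⟩ := Chk_hst hpp.pre h
      rw [List.prefix_append_right_inj] at h7
      exact ⟨w, h5, h6, h7⟩
  · rintro ⟨lx, h1, h2⟩
    refine ⟨hst lx, H_hst _, ?_, ?_⟩
    · by_cases h3 : l = lx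
      · rw [h3]
        exact Or.inl rfl
      · exact Or.inr (Sx_of (PP_iff.2 ⟨h2, h3⟩))
    · intro y
      rcases G_or (P := P) y with h | ⟨n, rfl⟩ | ⟨ly, rfl⟩
      · exact Or.inl h
      · exact Or.inr (Or.inl (EE_num n))
      · rcases compare lx ly with rfl | h | h | h
        · exact Or.inr (Or.inr (Or.inl rfl))
        · obtain ⟨q, hq, rfl⟩ := h
          obtain ⟨w, h5, h6, h7⟩ := h1 q ⟨ly, rfl⟩ hq
          exact Or.inr (Or.inr (Or.inr (Or.inr (Or.inr (Or.inr
            (Chk_of h5 h6 ((List.prefix_append_right_inj _).2 h7)))))))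
        · exact Or.inr (Or.inr (Or.inr (Or.inl (Sx_of h))))
        · rcases MI_or_MII (P := P) h with h | h
          · exact Or.inr (Or.inr (Or.inr (Or.inr (Or.inl h))))
          · exact Or.inr (Or.inr (Or.inr (Or.inr (Or.inr (Or.inl h)))))

/-! ### The lists `[0, n]` -/

variable (P) in
/-- the empty list -/
def Emp (t : Tm) : Prop := H P t ∧ ∀ y, G P y ∨ EE P y ∨ y = t ∨ St P y t

variable (P) in
/-- the list `[0]` -/
def Ze (t : Tm) : Prop := H P t ∧ (∃ u, Emp P u ∧ St P t u) ∧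
  ∀ y, G P y ∨ EE P y ∨ Emp P y ∨ y = t ∨ St P y t ∨ ∃ w, St P y w ∧ St P w t

variable (P) in
/-- the lists `[0, n]` -/
def Pr (t : Tm) : Prop := ∃ t0, Ze P t0 ∧ H P t ∧ Sx P t t0 ∧
  ∀ y, G P y ∨ EE P y ∨ y = t ∨ Sx P y t ∨ MI P t y ∨ MII P t y ∨ y = t0 ∨ Sx P t0 y

variable (P) in
/-- lists which do not have the form `[0, n]` -/
def Np (y : Tm) : Prop := Emp P y ∨ ∃ t0, Ze P t0 ∧ (y = t0 ∨ MI P t0 y ∨ MII P t0 y ∨
  ∃ q, Pr P q ∧ Sx P y q)

variable (P) in
/-- the list `[0, 0]` -/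
def D0 (t : Tm) : Prop := Pr P t ∧ ∀ y, G P y ∨ EE P y ∨ Np P y ∨ y = t ∨ St P y t

variable (P) in
/-- `t = [0, n]`, `t' = [0, n + 1]` -/
def Su (t' t : Tm) : Prop := Pr P t' ∧ Pr P t ∧ St P t' t ∧
  ∀ y, G P y ∨ EE P y ∨ Np P y ∨ y = t ∨ y = t' ∨ St P t y ∨ St P y t'

theorem hst_inj {l l' : List ℕ} (h : hst l = hst l') : l = l' := pre_inj (Or.inl rfl) h

theorem Emp_iff {t : Tm} : Emp P t ↔ t = e := by
  constructor
  · rintro ⟨h1, h2⟩
    obtain ⟨l, rfl⟩ := H_iff.1 h1
    rcases h2 e with h | h | h | h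
    · exact (G_hst (l := []) h).elim
    · exact (EE_hst (l := []) h).elim
    · exact h.symm
    · exfalso
      rcases succ_e h with h3 | h3
      · have := congrArg fin h3
        rw [fin_pre] at this
        simp [fin] at this
      · have := congrArg fin h3
        rw [fin_pre] at this
        simp [fin] at this
  · rintro rfl
    refine ⟨H_hst [], fun y => ?_⟩
    rcases G_or (P := P) y with h | ⟨n, rfl⟩ | ⟨l, rfl⟩
    · exact Or.inl h
    · exact Or.inr (Or.inl (EE_num n))
    · by_cases hl : l = []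
      · subst hl
        exact Or.inr (Or.inr (Or.inl rfl))
      · have := (St_cut (P := P) (p := []) hl e).1
        exact Or.inr (Or.inr (Or.inr this))

theorem W_hst_pos {l : List ℕ} (hl : l ≠ []) : 3 ≤ W (hst l) := by
  have : 0 < l.length := List.length_pos_iff.2 hl
  rw [W_pre]
  simp only [W]
  omega

theorem St_e_hst {l : List ℕ} (h : St P e (hst l)) : False := by
  rcases succ_e h with h3 | h3
  · have := congrArg fin h3
    rw [fin_pre] at this
    simp [fin] at this
  · have := congrArg fin h3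
    rw [fin_pre] at this
    simp [fin] at this

theorem Ze_iff {t : Tm} : Ze P t ↔ t = hst [0] := by
  constructor
  · rintro ⟨h1, ⟨u, h2, h3⟩, h4⟩
    obtain ⟨l, rfl⟩ := H_iff.1 h1
    have hl : l ≠ [] := by
      rintro rfl
      rw [Emp_iff] at h2
      subst h2
      exact St_e_hst (l := []) h3
    have hw := W_hst_pos hl
    have h0 : W (hst [0]) = 3 := by rw [W_pre]; rfl
    rcases h4 (hst [0]) with h | h | h | h | h | ⟨w, h5, h6⟩
    · exact (G_hst h).elim
    · exact (EE_hst h).elim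
    · rw [Emp_iff] at h
      simp at h
    · exact h.symm
    · have := St_hst_lt h
      omega
    · have := St_hst_lt h5
      have := W_le h6
      omega
  · rintro rfl
    refine ⟨H_hst _, ⟨e, Emp_iff.2 rfl, (St_cut (p := []) (by simp) e).1⟩, fun y => ?_⟩
    rcases G_or (P := P) y with h | ⟨n, rfl⟩ | ⟨l, rfl⟩
    · exact Or.inl h
    · exact Or.inr (Or.inl (EE_num n))
    · rcases l with _ | ⟨m, l⟩
      · exact Or.inr (Or.inr (Or.inl (Emp_iff.2 rfl)))
      · have hm : m ≠ 0 → St P (hst [m]) (hst [0]) := fun hm =>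
          St_NC e ⟨[], m, [], 0, rfl, by omega, rfl⟩
        have hl : l ≠ [] → St P (hst (m :: l)) (hst [m]) := fun hl =>
          (St_cut (P := P) (p := [m]) hl e).1
        by_cases h1 : l = []
        · subst h1
          by_cases h2 : m = 0
          · subst h2
            exact Or.inr (Or.inr (Or.inr (Or.inl rfl)))
          · exact Or.inr (Or.inr (Or.inr (Or.inr (Or.inl (hm h2)))))
        · by_cases h2 : m = 0
          · subst h2
            exact Or.inr (Or.inr (Or.inr (Or.inr (Or.inl (hl h1)))))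
          · exact Or.inr (Or.inr (Or.inr (Or.inr (Or.inr ⟨_, hl h1, hm h2⟩))))

theorem Pr_iff {t : Tm} : Pr P t ↔ ∃ n, t = hst [0, n] := by
  constructor
  · rintro ⟨t0, h1, h2, h3, h4⟩
    rw [Ze_iff] at h1
    subst h1
    obtain ⟨l, rfl⟩ := H_iff.1 h2
    obtain ⟨q, hq, rfl⟩ := Sx_hst.1 h3
    rcases q with _ | ⟨n, q⟩
    · exact absurd rfl hq
    · refine ⟨n, ?_⟩
      have hpp : [0, n] <+: [0] ++ n :: q := ⟨q, rfl⟩
      rcases h4 (hst [0, n]) with h | h | h | h | h | h | h | h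
      · exact (G_hst h).elim
      · exact (EE_hst h).elim
      · exact h.symm
      · have := (Sx_hst.1 h).lt
        simp at this
      · exact absurd hpp (MI_hst h).symm.not_prefix
      · exact absurd hpp (MII_hst h).symm.not_prefix
      · have := hst_inj h
        simp at this
      · have := (Sx_hst.1 h).lt
        simp at this
  · rintro ⟨n, rfl⟩
    refine ⟨hst [0], Ze_iff.2 rfl, H_hst _, Sx_of ⟨[n], by simp, rfl⟩, fun y => ?_⟩
    rcases G_or (P := P) y with h | ⟨m, rfl⟩ | ⟨l, rfl⟩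
    · exact Or.inl h
    · exact Or.inr (Or.inl (EE_num m))
    · rcases compare [0, n] l with rfl | h | h | h
      · exact Or.inr (Or.inr (Or.inl rfl))
      · obtain ⟨q, hq, h⟩ := h
        rcases l with _ | ⟨m, l⟩
        · exact Or.inr (Or.inr (Or.inr (Or.inr (Or.inr (Or.inr (Or.inr
            (Sx_of ⟨[0], by simp, rfl⟩)))))))
        · have h5 : m = 0 := by
            have := congrArg List.head? h
            simpa using this.symm
          subst h5
          rcases l with _ | ⟨m, l⟩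
          · exact Or.inr (Or.inr (Or.inr (Or.inr (Or.inr (Or.inr (Or.inl rfl))))))
          · exfalso
            have h6 := congrArg List.length h
            have := List.length_pos_iff.2 hq
            simp only [List.length_append, List.length_cons, List.length_nil] at h6
            omega
      · exact Or.inr (Or.inr (Or.inr (Or.inl (Sx_of h))))
      · rcases MI_or_MII (P := P) h with h | h
        · exact Or.inr (Or.inr (Or.inr (Or.inr (Or.inl h))))
        · exact Or.inr (Or.inr (Or.inr (Or.inr (Or.inr (Or.inl h)))))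

theorem Np_hst {l : List ℕ} : Np P (hst l) ↔ ¬ ∃ n, l = [0, n] := by
  constructor
  · rintro h ⟨n, rfl⟩
    rcases h with h | ⟨t0, h1, h2⟩
    · rw [Emp_iff] at h
      simp at h
    · rw [Ze_iff] at h1
      subst h1
      have hp : [0] <+: [0, n] := ⟨[n], rfl⟩
      rcases h2 with h | h | h | ⟨q, h3, h4⟩
      · have := hst_inj h
        simp at this
      · exact (MI_hst h).not_prefix hp
      · exact (MII_hst h).not_prefix hp
      · obtain ⟨m, rfl⟩ := Pr_iff.1 h3
        have := (Sx_hst.1 h4).lt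
        simp at this
  · intro h
    rcases compare [0] l with rfl | h1 | h1 | h1
    · exact Or.inr ⟨hst [0], Ze_iff.2 rfl, Or.inl rfl⟩
    · left
      rw [Emp_iff]
      have := h1.lt
      have h2 : l = [] := List.length_eq_zero_iff.1 (by simpa using this)
      rw [h2]
      rfl
    · right
      refine ⟨hst [0], Ze_iff.2 rfl, ?_⟩
      obtain ⟨q, hq, rfl⟩ := h1
      rcases q with _ | ⟨n, q⟩
      · exact absurd rfl hq
      · right; right; right
        refine ⟨hst [0, n], Pr_iff.2 ⟨n, rfl⟩, Sx_of ⟨q, ?_, rfl⟩⟩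
        rintro rfl
        exact h ⟨n, rfl⟩
    · right
      refine ⟨hst [0], Ze_iff.2 rfl, ?_⟩
      rcases MI_or_MII (P := P) h1 with h | h
      · exact Or.inr (Or.inl h)
      · exact Or.inr (Or.inr (Or.inl h))

theorem St_two {m n : ℕ} : St P (hst [0, m]) (hst [0, n]) ↔ n < m := by
  constructor
  · intro h
    have := St_hst_lt h
    rw [W_pre, W_pre] at this
    simp at this
    omega
  · intro h
    exact St_NC e ⟨[0], m, [], n, rfl, h, rfl⟩

theorem D0_iff {t : Tm} : D0 P t ↔ t = hst [0, 0] := by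
  constructor
  · rintro ⟨h1, h2⟩
    obtain ⟨n, rfl⟩ := Pr_iff.1 h1
    rcases h2 (hst [0, 0]) with h | h | h | h | h
    · exact (G_hst h).elim
    · exact (EE_hst h).elim
    · exact absurd ⟨0, rfl⟩ (Np_hst.1 h)
    · exact h.symm
    · rw [St_two] at h
      omega
  · rintro rfl
    refine ⟨Pr_iff.2 ⟨0, rfl⟩, fun y => ?_⟩
    rcases G_or (P := P) y with h | ⟨m, rfl⟩ | ⟨l, rfl⟩
    · exact Or.inl h
    · exact Or.inr (Or.inl (EE_num m))
    · by_cases h : ∃ n, l = [0, n]
      · obtain ⟨n, rfl⟩ := h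
        by_cases hn : n = 0
        · subst hn
          exact Or.inr (Or.inr (Or.inr (Or.inl rfl)))
        · exact Or.inr (Or.inr (Or.inr (Or.inr (St_two.2 (by omega)))))
      · exact Or.inr (Or.inr (Or.inl (Np_hst.2 h)))

theorem Su_iff {t' t : Tm} : Su P t' t ↔ ∃ n, t' = hst [0, n + 1] ∧ t = hst [0, n] := by
  constructor
  · rintro ⟨h1, h2, h3, h4⟩
    obtain ⟨m, rfl⟩ := Pr_iff.1 h1
    obtain ⟨n, rfl⟩ := Pr_iff.1 h2
    rw [St_two] at h3
    refine ⟨n, ?_, rfl⟩
    rcases h4 (hst [0, n + 1]) with h | h | h | h | h | h | h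
    · exact (G_hst h).elim
    · exact (EE_hst h).elim
    · exact absurd ⟨n + 1, rfl⟩ (Np_hst.1 h)
    · have := hst_inj h
      simp at this
    · exact h.symm
    · rw [St_two] at h
      omega
    · rw [St_two] at h
      omega
  · rintro ⟨n, rfl, rfl⟩
    refine ⟨Pr_iff.2 ⟨_, rfl⟩, Pr_iff.2 ⟨_, rfl⟩, St_two.2 (by omega), fun y => ?_⟩
    rcases G_or (P := P) y with h | ⟨m, rfl⟩ | ⟨l, rfl⟩
    · exact Or.inl h
    · exact Or.inr (Or.inl (EE_num m))
    · by_cases h : ∃ n, l = [0, n]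
      · obtain ⟨m, rfl⟩ := h
        have h5 : m < n ∨ m = n ∨ m = n + 1 ∨ n + 1 < m := by omega
        rcases h5 with h5 | rfl | rfl | h5
        · exact Or.inr (Or.inr (Or.inr (Or.inr (Or.inr (Or.inl (St_two.2 h5))))))
        · exact Or.inr (Or.inr (Or.inr (Or.inl rfl)))
        · exact Or.inr (Or.inr (Or.inr (Or.inr (Or.inl rfl))))
        · exact Or.inr (Or.inr (Or.inr (Or.inr (Or.inr (Or.inr (St_two.2 h5))))))
      · exact Or.inr (Or.inr (Or.inl (Np_hst.2 h)))

variable (P) in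
/-- `t = [0, n]` -/
def Dn : ℕ → Tm → Prop
  | 0, t => D0 P t
  | n + 1, t' => ∃ t, Su P t' t ∧ Dn n t

theorem Dn_iff {n : ℕ} {t : Tm} : Dn P n t ↔ t = hst [0, n] := by
  induction n generalizing t with
  | zero => exact D0_iff
  | succ n ih =>
    constructor
    · rintro ⟨t1, h1, h2⟩
      rw [ih] at h2
      subst h2
      obtain ⟨m, rfl, h3⟩ := Su_iff.1 h1
      have := hst_inj h3
      simp at this
      rw [this]
    · rintro rfl
      exact ⟨hst [0, n], Su_iff.2 ⟨n, rfl, rfl⟩, ih.2 rfl⟩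

theorem Good_iff {n : ℕ} : (∃ t, Dn P n t ∧ Good P t) ↔ GoodN P n := by
  constructor
  · rintro ⟨t, h1, h2⟩
    rw [Dn_iff] at h1
    subst h1
    exact Good_hst.1 h2
  · intro h
    exact ⟨_, Dn_iff.2 rfl, Good_hst.2 h⟩

end Pool.Agent.R569.OSR
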