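import Mathlib

set_option autoImplicit false

/-!
# One-step rewriting and positive sentences: definitions

Positive first-order sentences over equality and one binary relation symbol, their truth in a
structure and their Gödel numbers; rewrite rules over a signature and one-step rewriting of ground
terms.
-/

namespace Pool.Agent.R569.OSR

/-- Positive first-order formulas over equality and one binary relation symbol; variables are
de Bruijn indices. -/
inductive PF : Type
  | eq : ℕ → ℕ → PF
  | rel : ℕ → ℕ → PF
  | and : PF → PF → PF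
  | or : PF → PF → PF
  | ex : PF → PF
  | all : PF → PF

/-- put an element in front of an assignment -/
def scons {T : Type} (x : T) (v : ℕ → T) : ℕ → T
  | 0 => x
  | n + 1 => v n

/-- truth of a formula under an assignment -/
def Holds {T : Type} (S : T → T → Prop) : PF → (ℕ → T) → Prop
  | .eq i j, v => v i = v j
  | .rel i j, v => S (v i) (v j)
  | .and φ ψ, v => Holds S φ v ∧ Holds S ψ v
  | .or φ ψ, v => Holds S φ v ∨ Holds S ψ v
  | .ex φ, v => ∃ x, Holds S φ (scons x v)
  | .all φ, v => ∀ x, Holds S φ (scons x v)

/-- all free variables of the formula are below `k` -/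
def ClosedAt : ℕ → PF → Prop
  | k, .eq i j => i < k ∧ j < k
  | k, .rel i j => i < k ∧ j < k
  | k, .and φ ψ => ClosedAt k φ ∧ ClosedAt k ψ
  | k, .or φ ψ => ClosedAt k φ ∧ ClosedAt k ψ
  | k, .ex φ => ClosedAt (k + 1) φ
  | k, .all φ => ClosedAt (k + 1) φ

/-- Gödel numbers -/
def code : PF → ℕ
  | .eq i j => Nat.pair 0 (Nat.pair i j)
  | .rel i j => Nat.pair 1 (Nat.pair i j)
  | .and φ ψ => Nat.pair 2 (Nat.pair (code φ) (code ψ))
  | .or φ ψ => Nat.pair 3 (Nat.pair (code φ) (code ψ))
  | .ex φ => Nat.pair 4 (code φ)
  | .all φ => Nat.pair 5 (code φ)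

/-- Some computable function on Gödel numbers decides which positive sentences hold in the structure
`(T, S)` (the truth of a sentence does not depend on the assignment `v`). -/
def PosDecidable {T : Type} (S : T → T → Prop) : Prop :=
  ∃ f : ℕ → Bool, Computable f ∧ ∀ φ : PF, ClosedAt 0 φ → (f (code φ) = true ↔ ∀ v, Holds S φ v)

/-- A rewrite rule `l → r`: terms with variables from `ℕ`, `l` is not a variable and every variable
of `r` occurs in `l`. -/
def IsRule {L : FirstOrder.Language.{0, 0}} (l r : L.Term ℕ) : Prop :=
  (∀ i, l ≠ FirstOrder.Language.Term.var i) ∧ r.varFinset ⊆ l.varFinset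

/-- One-step rewriting of ground terms by a list of rules. -/
inductive OneStep {L : FirstOrder.Language.{0, 0}} (R : List (L.Term ℕ × L.Term ℕ)) :
    L.Term Empty → L.Term Empty → Prop
  | root {l r : L.Term ℕ} (h : (l, r) ∈ R) (σ : ℕ → L.Term Empty) :
      OneStep R (l.subst σ) (r.subst σ)
  | arg {n : ℕ} (f : L.Functions n) (ts : Fin n → L.Term Empty) (i : Fin n) {t : L.Term Empty}
      (h : OneStep R (ts i) t) :
      OneStep R (FirstOrder.Language.Term.func f ts) (FirstOrder.Language.Term.func f (Function.update ts i t))

end Pool.Agent.R569.OSR
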