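import Pool.Agent.R569.OSR.Exact
import Pool.Agent.R569.OSR.Statement

set_option autoImplicit false

/-!
# Positive formulas

The reduction from locally good lists to the truth of positive sentences.
-/

namespace Pool.Agent.R569.OSR

theorem ClosedAt.mono {k k' : ℕ} {φ : PF} (h : ClosedAt k φ) (hk : k ≤ k') : ClosedAt k' φ := by
  induction φ generalizing k k' with
  | eq i j => exact ⟨h.1.trans_le hk, h.2.trans_le hk⟩
  | rel i j => exact ⟨h.1.trans_le hk, h.2.trans_le hk⟩
  | and φ ψ ih1 ih2 => exact ⟨ih1 h.1 hk, ih2 h.2 hk⟩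
  | or φ ψ ih1 ih2 => exact ⟨ih1 h.1 hk, ih2 h.2 hk⟩
  | ex φ ih => exact ih (k := k + 1) (k' := k' + 1) h (by omega)
  | all φ ih => exact ih (k := k + 1) (k' := k' + 1) h (by omega)

theorem exists_closedAt (φ : PF) : ∃ k, ClosedAt k φ := by
  induction φ with
  | eq i j => exact ⟨max i j + 1, by omega, by omega⟩
  | rel i j => exact ⟨max i j + 1, by omega, by omega⟩
  | and φ ψ ih1 ih2 =>
    obtain ⟨k, hk⟩ := ih1
    obtain ⟨k', hk'⟩ := ih2
    exact ⟨max k k', hk.mono (le_max_left _ _), hk'.mono (le_max_right _ _)⟩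
  | or φ ψ ih1 ih2 =>
    obtain ⟨k, hk⟩ := ih1
    obtain ⟨k', hk'⟩ := ih2
    exact ⟨max k k', hk.mono (le_max_left _ _), hk'.mono (le_max_right _ _)⟩
  | ex φ ih =>
    obtain ⟨k, hk⟩ := ih
    exact ⟨k, hk.mono (Nat.le_succ k)⟩
  | all φ ih =>
    obtain ⟨k, hk⟩ := ih
    exact ⟨k, hk.mono (Nat.le_succ k)⟩

section pd

variable {T : Type} {S : T → T → Prop}

/-- definable by a positive formula -/
def PD (S : T → T → Prop) (Q : (ℕ → T) → Prop) : Prop := ∃ φ : PF, ∀ v, Holds S φ v ↔ Q v

theorem PD.eq (i j : ℕ) : PD S (fun v => v i = v j) := ⟨.eq i j, fun _ => Iff.rfl⟩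

theorem PD.rel (i j : ℕ) : PD S (fun v => S (v i) (v j)) := ⟨.rel i j, fun _ => Iff.rfl⟩

theorem PD.and {Q Q' : (ℕ → T) → Prop} (h : PD S Q) (h' : PD S Q') :
    PD S (fun v => Q v ∧ Q' v) := by
  obtain ⟨φ, hφ⟩ := h
  obtain ⟨ψ, hψ⟩ := h'
  exact ⟨.and φ ψ, fun v => and_congr (hφ v) (hψ v)⟩

theorem PD.or {Q Q' : (ℕ → T) → Prop} (h : PD S Q) (h' : PD S Q') :
    PD S (fun v => Q v ∨ Q' v) := by
  obtain ⟨φ, hφ⟩ := h
  obtain ⟨ψ, hψ⟩ := h'
  exact ⟨.or φ ψ, fun v => or_congr (hφ v) (hψ v)⟩

theorem PD.ex {Q : T → (ℕ → T) → Prop} (h : PD S (fun v => Q (v 0) (fun i => v (i + 1)))) :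
    PD S (fun v => ∃ x, Q x v) := by
  obtain ⟨φ, hφ⟩ := h
  exact ⟨.ex φ, fun v => exists_congr fun x => hφ (scons x v)⟩

theorem PD.all {Q : T → (ℕ → T) → Prop} (h : PD S (fun v => Q (v 0) (fun i => v (i + 1)))) :
    PD S (fun v => ∀ x, Q x v) := by
  obtain ⟨φ, hφ⟩ := h
  exact ⟨.all φ, fun v => forall_congr' fun x => hφ (scons x v)⟩

end pd

variable {P : List Pat}

theorem pd_Wk (k i j : ℕ) : PD (St P) (fun v => Wk P k (v i) (v j)) := by
  induction k generalizing i j with
  | zero => exact PD.eq i j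
  | succ k ih =>
    simp only [Wk]
    exact PD.ex (PD.and (PD.rel (i + 1) 0) (ih 0 (j + 1)))

theorem pd_Cy (k i : ℕ) : PD (St P) (fun v => Cy P k (v i)) := pd_Wk k i i

theorem pd_G (i : ℕ) : PD (St P) (fun v => G P (v i)) := by
  simp only [G]
  exact (pd_Cy 1 i).or ((pd_Cy 2 i).or ((pd_Cy 3 i).or ((pd_Cy 5 i).or (pd_Cy 7 i))))

theorem pd_HH (i : ℕ) : PD (St P) (fun v => HH P (v i)) := by
  simp only [HH]
  repeat' first
    | exact PD.rel _ _ | exact PD.eq _ _ | exact pd_Cy _ _ | apply PD.and | apply PD.or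
    | apply PD.ex | apply PD.all | beta_reduce

theorem pd_EE (i : ℕ) : PD (St P) (fun v => EE P (v i)) := by
  simp only [EE]
  repeat' first
    | exact PD.rel _ _ | exact PD.eq _ _ | exact pd_G _ | exact pd_HH _ | apply PD.and
    | apply PD.or | apply PD.ex | apply PD.all | beta_reduce

theorem pd_Md (i j : ℕ) : PD (St P) (fun v => Md P (v i) (v j)) := by
  simp only [Md]
  repeat' first
    | exact PD.rel _ _ | exact PD.eq _ _ | exact pd_Cy _ _ | apply PD.and
    | apply PD.or | apply PD.ex | apply PD.all | beta_reduce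

theorem pd_Mz (i j : ℕ) : PD (St P) (fun v => Mz P (v i) (v j)) := by
  simp only [Mz]
  repeat' first
    | exact PD.rel _ _ | exact PD.eq _ _ | exact pd_Cy _ _ | apply PD.and
    | apply PD.or | apply PD.ex | apply PD.all | beta_reduce

theorem pd_Sx (i j : ℕ) : PD (St P) (fun v => Sx P (v i) (v j)) := by
  simp only [Sx]
  repeat' first
    | exact PD.rel _ _ | exact PD.eq _ _ | exact pd_Cy _ _ | apply PD.and
    | apply PD.or | apply PD.ex | apply PD.all | beta_reduce

theorem pd_Sy (i j : ℕ) : PD (St P) (fun v => Sy P (v i) (v j)) := by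
  simp only [Sy]
  repeat' first
    | exact PD.rel _ _ | exact PD.eq _ _ | exact pd_Cy _ _ | apply PD.and
    | apply PD.or | apply PD.ex | apply PD.all | beta_reduce

theorem pd_MI (i j : ℕ) : PD (St P) (fun v => MI P (v i) (v j)) := by
  simp only [MI]
  repeat' first
    | exact PD.rel _ _ | exact PD.eq _ _ | exact pd_Cy _ _ | exact pd_Md _ _ | exact pd_Mz _ _
    | apply PD.and | apply PD.or | apply PD.ex | apply PD.all | beta_reduce

theorem pd_MII (i j : ℕ) : PD (St P) (fun v => MII P (v i) (v j)) := by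
  simp only [MII]
  repeat' first
    | exact PD.rel _ _ | exact PD.eq _ _ | exact pd_Cy _ _ | exact pd_Md _ _ | exact pd_Mz _ _
    | apply PD.and | apply PD.or | apply PD.ex | apply PD.all | beta_reduce

theorem pd_H (i : ℕ) : PD (St P) (fun v => H P (v i)) := by
  simp only [H]
  repeat' first
    | exact PD.rel _ _ | exact PD.eq _ _ | exact pd_G _ | exact pd_EE _ | exact pd_Sx _ _
    | exact pd_Sy _ _ | exact pd_MI _ _ | exact pd_MII _ _
    | apply PD.and | apply PD.or | apply PD.ex | apply PD.all | beta_reduce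

theorem pd_Chk (i j : ℕ) : PD (St P) (fun v => Chk P (v i) (v j)) := by
  simp only [Chk]
  repeat' first
    | exact PD.rel _ _ | exact PD.eq _ _ | exact pd_Cy _ _ | exact pd_H _ | exact pd_Sx _ _
    | apply PD.and | apply PD.or | apply PD.ex | apply PD.all | beta_reduce

theorem pd_Good (i : ℕ) : PD (St P) (fun v => Good P (v i)) := by
  simp only [Good]
  repeat' first
    | exact PD.rel _ _ | exact PD.eq _ _ | exact pd_G _ | exact pd_EE _ | exact pd_Sx _ _
    | exact pd_MI _ _ | exact pd_MII _ _ | exact pd_H _ | exact pd_Chk _ _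
    | apply PD.and | apply PD.or | apply PD.ex | apply PD.all | beta_reduce

theorem pd_Emp (i : ℕ) : PD (St P) (fun v => Emp P (v i)) := by
  simp only [Emp]
  repeat' first
    | exact PD.rel _ _ | exact PD.eq _ _ | exact pd_G _ | exact pd_EE _ | exact pd_H _
    | apply PD.and | apply PD.or | apply PD.ex | apply PD.all | beta_reduce

theorem pd_Ze (i : ℕ) : PD (St P) (fun v => Ze P (v i)) := by
  simp only [Ze]
  repeat' first
    | exact PD.rel _ _ | exact PD.eq _ _ | exact pd_G _ | exact pd_EE _ | exact pd_H _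
    | exact pd_Emp _
    | apply PD.and | apply PD.or | apply PD.ex | apply PD.all | beta_reduce

theorem pd_Pr (i : ℕ) : PD (St P) (fun v => Pr P (v i)) := by
  simp only [Pr]
  repeat' first
    | exact PD.rel _ _ | exact PD.eq _ _ | exact pd_G _ | exact pd_EE _ | exact pd_Sx _ _
    | exact pd_MI _ _ | exact pd_MII _ _ | exact pd_H _ | exact pd_Ze _
    | apply PD.and | apply PD.or | apply PD.ex | apply PD.all | beta_reduce

theorem pd_Np (i : ℕ) : PD (St P) (fun v => Np P (v i)) := by
  simp only [Np]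
  repeat' first
    | exact PD.rel _ _ | exact PD.eq _ _ | exact pd_Emp _ | exact pd_Sx _ _
    | exact pd_MI _ _ | exact pd_MII _ _ | exact pd_Pr _ | exact pd_Ze _
    | apply PD.and | apply PD.or | apply PD.ex | apply PD.all | beta_reduce

theorem pd_D0 (i : ℕ) : PD (St P) (fun v => D0 P (v i)) := by
  simp only [D0]
  repeat' first
    | exact PD.rel _ _ | exact PD.eq _ _ | exact pd_G _ | exact pd_EE _
    | exact pd_Pr _ | exact pd_Np _
    | apply PD.and | apply PD.or | apply PD.ex | apply PD.all | beta_reduce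

theorem pd_Su (i j : ℕ) : PD (St P) (fun v => Su P (v i) (v j)) := by
  simp only [Su]
  repeat' first
    | exact PD.rel _ _ | exact PD.eq _ _ | exact pd_G _ | exact pd_EE _
    | exact pd_Pr _ | exact pd_Np _
    | apply PD.and | apply PD.or | apply PD.ex | apply PD.all | beta_reduce

/-! ### The sentences -/

/-- the formulas for the lists `[0, n]` -/
def Fn (su d0 : PF) : ℕ → PF
  | 0 => d0
  | n + 1 => .ex (.and su (Fn su d0 n))

/-- several existential quantifiers -/
def exs : ℕ → PF → PF
  | 0, φ => φ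
  | n + 1, φ => .ex (exs n φ)

theorem Holds_exs {T : Type} {S : T → T → Prop} {φ : PF} {p : Prop} (h : ∀ v, Holds S φ v ↔ p)
    (n : ℕ) (v : ℕ → T) : Holds S (exs n φ) v ↔ p := by
  induction n generalizing v with
  | zero => exact h v
  | succ n ih =>
    constructor
    · rintro ⟨x, hx⟩
      exact (ih _).1 hx
    · intro hp
      exact ⟨v 0, (ih _).2 hp⟩

theorem ClosedAt_exs {n k : ℕ} {φ : PF} (h : ClosedAt (k + n) φ) : ClosedAt k (exs n φ) := by
  induction n generalizing k with
  | zero => exact h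
  | succ n ih => exact ih (k := k + 1) (by rwa [show k + 1 + n = k + (n + 1) by omega])

theorem code_exs (n : ℕ) (φ : PF) : code (exs n φ) = (fun x => Nat.pair 4 x)^[n] (code φ) := by
  induction n with
  | zero => rfl
  | succ n ih =>
    rw [Function.iterate_succ_apply', ← ih]
    rfl

theorem computable_code (su d0 g : PF) (N : ℕ) :
    Computable (fun n => code (exs N (.ex (.and (Fn su d0 n) g)))) := by
  have h1 : Primrec (fun n => code (Fn su d0 n)) := by
    have : Primrec (fun n : ℕ => Nat.rec (motive := fun _ => ℕ) (code d0)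
        (fun _ x => Nat.pair 4 (Nat.pair 2 (Nat.pair (code su) x))) n) := by
      refine Primrec.nat_rec₁ _ ?_
      exact Primrec₂.natPair.comp (Primrec.const _) (Primrec₂.natPair.comp (Primrec.const _)
        (Primrec₂.natPair.comp (Primrec.const _) Primrec.snd))
    refine this.of_eq fun n => ?_
    induction n with
    | zero => rfl
    | succ n ih =>
      show Nat.pair 4 (Nat.pair 2 (Nat.pair (code su) _)) = _
      rw [ih]
      rfl
  have h2 : Primrec (fun n => code (.ex (.and (Fn su d0 n) g))) :=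
    Primrec₂.natPair.comp (Primrec.const _) (Primrec₂.natPair.comp (Primrec.const _)
        (Primrec₂.natPair.comp h1 (Primrec.const _)))
  have h3 : ∀ N, Primrec (fun n => (fun x => Nat.pair 4 x)^[N]
      (code (.ex (.and (Fn su d0 n) g)))) := by
    intro N
    induction N with
    | zero => exact h2
    | succ N ih =>
      simp only [Function.iterate_succ_apply']
      exact Primrec₂.natPair.comp (Primrec.const _) ih
  simp only [code_exs]
  exact (h3 N).to_comp

theorem not_posDec {f : ℕ → ℕ} (hf : Computable f)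
    (h : ¬ ComputablePred (fun n => GoodN P (f n))) : ¬ PosDecidable (St P) := by
  rintro ⟨d, hd, hd2⟩
  obtain ⟨su, hsu⟩ := pd_Su (P := P) 1 0
  obtain ⟨d0, hd0⟩ := pd_D0 (P := P) 0
  obtain ⟨g, hg⟩ := pd_Good (P := P) 0
  obtain ⟨k1, hk1⟩ := exists_closedAt su
  obtain ⟨k2, hk2⟩ := exists_closedAt d0
  obtain ⟨k3, hk3⟩ := exists_closedAt g
  set N := k1 + k2 + k3 with hN
  have hF : ∀ n v, Holds (St P) (Fn su d0 n) v ↔ Dn P n (v 0) := by
    intro n
    induction n with
    | zero => exact hd0
    | succ n ih =>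
      intro v
      refine exists_congr fun x => and_congr (hsu _) (ih _)
  have hC : ∀ n, ClosedAt (N + 1) (Fn su d0 n) := by
    intro n
    induction n with
    | zero => exact hk2.mono (by omega)
    | succ n ih => exact ⟨hk1.mono (by omega), ih.mono (by omega)⟩
  apply h
  rw [ComputablePred.computable_iff]
  refine ⟨fun n => d (code (exs N (.ex (.and (Fn su d0 (f n)) g)))),
    hd.comp ((computable_code su d0 g N).comp hf), ?_⟩
  funext n
  apply propext
  rw [hd2]
  · have : ∀ v, Holds (St P) (.ex (.and (Fn su d0 (f n)) g)) v ↔ GoodN P (f n) := by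
      intro v
      rw [← Good_iff]
      exact exists_congr fun x => and_congr (hF _ _) (hg _)
    constructor
    · intro hh v
      exact (Holds_exs this N v).2 hh
    · intro hh
      exact (Holds_exs this N (fun _ => Tm.z)).1 (hh _)
  · apply ClosedAt_exs
    rw [Nat.zero_add]
    exact ⟨hC _, hk3.mono (by omega)⟩

end Pool.Agent.R569.OSR
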