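import Pool.Agent.H502.PcReg

set_option autoImplicit false

/-!
# Lists of numbers with windows

A list of natural numbers is locally good if every nonempty end of it begins with an instance of one
of finitely many patterns. For suitable patterns it is undecidable whether there is a locally good
list which begins with `0, n` (the lists code the runs of a register machine).
-/

namespace Pool.Agent.R569.OSR

open Pool.Agent.H502.PcSrc

/-- a pattern: `(k, some i)` stands for `k + x_i`, `(k, none)` for `k` -/
abbrev Pat := List (ℕ × Option ℕ)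

/-- value of an entry of a pattern -/
def elN (σ : ℕ → ℕ) (x : ℕ × Option ℕ) : ℕ := x.1 + x.2.elim 0 σ

/-- instances of the patterns -/
def WinN (P : List Pat) (w : List ℕ) : Prop := ∃ p ∈ P, ∃ σ : ℕ → ℕ, w = p.map (elN σ)

/-- locally good lists -/
def LG (P : List Pat) (l : List ℕ) : Prop :=
  ∀ q, q <:+ l → q ≠ [] → ∃ w, w ≠ [] ∧ WinN P w ∧ w <+: q

/-- some locally good list begins with `0, n` -/
def GoodN (P : List Pat) (n : ℕ) : Prop := ∃ l, LG P l ∧ [0, n] <+: l

theorem LG_nil (P : List Pat) : LG P [] := by
  intro q hq hne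
  exact absurd (List.eq_nil_of_suffix_nil hq) hne

theorem LG_cons {P : List Pat} {a : ℕ} {l w : List ℕ} (h : LG P l) (hw : w ≠ []) (hW : WinN P w)
    (hp : w <+: a :: l) : LG P (a :: l) := by
  intro q hq hne
  rcases List.suffix_cons_iff.1 hq with h1 | h1
  · subst h1
    exact ⟨w, hw, hW, hp⟩
  · exact h q h1 hne

theorem LG_append_of {P : List Pat} (u l : List ℕ) (h : LG P l) (hu : ∀ a ∈ u, WinN P [a]) :
    LG P (u ++ l) := by
  induction u with
  | nil => exact h
  | cons a u ih =>
    refine LG_cons (ih fun b hb => hu b (List.mem_cons_of_mem _ hb)) (w := [a]) (by simp)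
      (hu a (by simp)) ?_
    exact ⟨u ++ l, rfl⟩

section mach

variable {Q J : Type} [DecidableEq J] (D : DM Q J) (js : List J) (ix : J → ℕ) (nu : Q → ℕ)
  (K h : ℕ)

/-- old registers -/
def old (p : Q) (b : Bool) (j : J) : ℕ × Option ℕ :=
  if j = D.reg p then (if b then (K + 1, some (ix j)) else (K, none)) else (K, some (ix j))

/-- new registers -/
def new (p : Q) (b : Bool) (j : J) : ℕ × Option ℕ :=
  if j = D.reg p then (if b then (K, some (ix j)) else (K + (D.vec p b j).toNat, none))
  else (K + (D.vec p b j).toNat, some (ix j))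

/-- the second half of a pattern -/
def tl (p : Q) (b : Bool) : Pat :=
  match D.nxt p b with
  | none => [(h, none)]
  | some p' => (nu p', none) :: js.map (new D ix K p b)

/-- pattern of a transition -/
def tp (p : Q) (b : Bool) : Pat :=
  (nu p, none) :: (js.map (old D ix K p b) ++ tl D js ix nu K h p b)

/-- code of a configuration -/
def enc (p : Q) (c : J → ℤ) : List ℕ := nu p :: js.map (fun j => K + (c j).toNat)

/-- the start pattern -/
def sp (j0 : J) (p0 : Q) : Pat :=
  (0, none) :: (K, some 0) :: (nu p0, none) ::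
    js.map (fun j => if j = j0 then (K, some 0) else (K, none))

/-- all patterns -/
def pats (qs : List Q) (j0 : J) (p0 : Q) : List Pat :=
  sp js nu K j0 p0 :: [(K, some 0)] :: [(h, none)] ::
    (qs.flatMap fun p => [tp D js ix nu K h p true, tp D js ix nu K h p false])

variable {D js ix nu K h} {qs : List Q} {j0 : J} {p0 : Q}

theorem mem_pats {x : Pat} : x ∈ pats D js ix nu K h qs j0 p0 ↔
    x = sp js nu K j0 p0 ∨ x = [(K, some 0)] ∨ x = [(h, none)] ∨
      ∃ p ∈ qs, ∃ b, x = tp D js ix nu K h p b := by
  unfold pats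
  simp only [List.mem_cons, List.mem_flatMap, List.not_mem_nil, or_false, Bool.exists_bool]
  constructor
  · rintro (h1 | h1 | h1 | ⟨p, hp, h1 | h1⟩)
    · exact Or.inl h1
    · exact Or.inr (Or.inl h1)
    · exact Or.inr (Or.inr (Or.inl h1))
    · exact Or.inr (Or.inr (Or.inr ⟨p, hp, Or.inr h1⟩))
    · exact Or.inr (Or.inr (Or.inr ⟨p, hp, Or.inl h1⟩))
  · rintro (h1 | h1 | h1 | ⟨p, hp, h1 | h1⟩)
    · exact Or.inl h1
    · exact Or.inr (Or.inl h1)
    · exact Or.inr (Or.inr (Or.inl h1))
    · exact Or.inr (Or.inr (Or.inr ⟨p, hp, Or.inr h1⟩))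
    · exact Or.inr (Or.inr (Or.inr ⟨p, hp, Or.inl h1⟩))

/-- the new registers of an instance of a pattern -/
theorem elN_new (p : Q) (b : Bool) (c : J → ℤ) (hc : ∀ j, 0 ≤ c j)
    (σ : ℕ → ℕ) (H : ∀ j, elN σ (old D ix K p b j) = K + (c j).toNat) (j : J) :
    elN σ (new D ix K p b j) = K + ((c + D.vec p b) j).toNat := by
  have h1 := H j
  have h2 := hc j
  simp only [elN, old, new, Pi.add_apply] at *
  by_cases hj : j = D.reg p
  · subst hj
    rcases b with _ | _
    · simp only [if_true, Bool.false_eq_true, if_false, Option.elim_none] at *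
      have := D.hz p (D.reg p)
      omega
    · simp only [if_true, Option.elim_some] at *
      have := D.hp' p
      omega
  · rw [if_neg hj] at *
    simp only [Option.elim_some] at *
    rcases b with _ | _
    · have := D.hz p j
      omega
    · have := D.hp p j hj
      omega

theorem br_of (p : Q) (b : Bool) (c : J → ℤ) (hc : ∀ j, 0 ≤ c j)
    (σ : ℕ → ℕ) (H : ∀ j, elN σ (old D ix K p b j) = K + (c j).toNat) : D.br p c = b := by
  have h1 := H (D.reg p)
  have h2 := hc (D.reg p)
  simp only [elN, old, if_true] at h1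
  unfold DM.br
  rcases b with _ | _
  · simp only [Bool.false_eq_true, if_false, Option.elim_none] at h1
    simp only [decide_eq_false_iff_not, not_lt]
    omega
  · simp only [if_true, Option.elim_some] at h1
    simp only [decide_eq_true_eq]
    omega

theorem exists_subst (hix : Function.Injective ix) (p : Q) (c : J → ℤ) (hc : ∀ j, 0 ≤ c j) :
    ∃ σ : ℕ → ℕ, ∀ j, elN σ (old D ix K p (D.br p c) j) = K + (c j).toNat := by
  classical
  refine ⟨fun i => if hi : ∃ j, ix j = i then
    (if hi.choose = D.reg p ∧ D.br p c = true then (c hi.choose).toNat - 1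
      else (c hi.choose).toNat) else 0, fun j => ?_⟩
  have hex : ∃ j', ix j' = ix j := ⟨j, rfl⟩
  have hch : hex.choose = j := hix hex.choose_spec
  simp only [elN, old]
  by_cases hj : j = D.reg p
  · rw [if_pos hj]
    by_cases hb : D.br p c = true
    · rw [if_pos hb]
      simp only [Option.elim_some, dif_pos hex, hch]
      rw [if_pos ⟨hj, hb⟩]
      have : 0 < c j := by
        rw [hj]
        simpa [DM.br] using hb
      omega
    · rw [if_neg hb]
      have : ¬ 0 < c j := by
        rw [hj]
        simpa [DM.br] using hb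
      have := hc j
      simp only [Option.elim_none]
      omega
  · rw [if_neg hj]
    simp only [Option.elim_some, dif_pos hex, hch]
    rw [if_neg (fun hh => hj hh.1)]

theorem halts_of_LG (hjs : ∀ j, j ∈ js) (hix : Function.Injective ix)
    (hnu : Function.Injective nu) (h0 : ∀ p, 0 < nu p) (h1 : ∀ p, nu p < h) (h2 : h < K) :
    ∀ (N : ℕ) (p : Q) (c : J → ℤ) (rest pre : List ℕ), (∀ j, 0 ≤ c j) → rest.length ≤ N →
      LG (pats D js ix nu K h qs j0 p0) (pre ++ (enc js nu K p c ++ rest)) →
      D.Halts (some p, c) := by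
  intro N
  induction N with
  | zero =>
    intro p c rest pre hc hr hG
    exact aux _ _ _ _ hc hr hG (fun p' rest' hlen _ => by
      obtain rfl : rest = [] := List.length_eq_zero_iff.1 (by omega)
      simp at hlen)
  | succ N ih =>
    intro p c rest pre hc hr hG
    exact aux _ _ _ _ hc hr hG (fun p' rest' hlen hG' => by
      refine ih p' _ rest' (pre ++ enc js nu K p c) ?_ (by omega) (by simpa using hG')
      have := D.st_nonneg (some p, c) hc
      exact this)
where
  aux {N : ℕ} (p : Q) (c : J → ℤ) (rest pre : List ℕ) (hc : ∀ j, 0 ≤ c j) (_ : rest.length ≤ N)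
      (hG : LG (pats D js ix nu K h qs j0 p0) (pre ++ (enc js nu K p c ++ rest)))
      (ih : ∀ (p' : Q) (rest' : List ℕ), rest'.length < rest.length →
        LG (pats D js ix nu K h qs j0 p0)
          (pre ++ (enc js nu K p c ++ (enc js nu K p' (D.st (some p, c)).2 ++ rest'))) →
        D.Halts (some p', (D.st (some p, c)).2)) : D.Halts (some p, c) := by
    obtain ⟨w, hw, ⟨pt, hpt, σ, rfl⟩, z, hz⟩ := hG (enc js nu K p c ++ rest)
      (List.suffix_append _ _) (by simp [enc])
    rw [mem_pats] at hpt
    have hp0 := h0 p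
    have hp1 := h1 p
    rcases hpt with rfl | rfl | rfl | ⟨p1, hp1', b, rfl⟩
    · exfalso
      simp [sp, enc, elN] at hz
      omega
    · exfalso
      simp [enc, elN] at hz
      omega
    · exfalso
      simp [enc, elN] at hz
      omega
    · simp only [tp, enc, List.map_cons, List.cons_append, List.cons.injEq, List.map_append,
        List.map_map, List.append_assoc] at hz
      obtain ⟨hz1, hz2⟩ := hz
      obtain rfl : p1 = p := by
        apply hnu
        simpa [elN] using hz1
      obtain ⟨hz3, hz4⟩ := List.append_inj hz2 (by simp)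
      have H : ∀ j, elN σ (old D ix K p1 b j) = K + (c j).toNat := fun j => by
        have := (List.map_inj_left.1 hz3) j (hjs j)
        simpa using this
      have hb := br_of p1 b c hc σ H
      rw [← DM.halts_st]
      have hst : D.st (some p1, c) = (D.nxt p1 b, c + D.vec p1 b) := by
        show (D.nxt p1 (D.br p1 c), c + D.vec p1 (D.br p1 c)) = _
        rw [hb]
      unfold tl at hz4
      rcases hn : D.nxt p1 b with _ | p'
      · rw [hst, hn]
        exact ⟨0, rfl⟩
      · rw [hn] at hz4
        have hnew : (js.map (new D ix K p1 b)).map (elN σ) =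
            js.map (fun j => K + ((D.st (some p1, c)).2 j).toNat) := by
          rw [List.map_map]
          refine List.map_congr_left fun j _ => ?_
          rw [Function.comp_apply, elN_new p1 b c hc σ H j, hst]
        have hrest : rest = enc js nu K p' (D.st (some p1, c)).2 ++ z := by
          rw [← hz4, List.map_cons, hnew]
          simp [enc, elN]
        have := ih p' z (by rw [hrest]; simp [enc]) (by rw [← hrest]; exact hG)
        rw [hst] at this ⊢
        rw [hn]
        exact this

theorem LG_of_halts (hix : Function.Injective ix)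
    (hqs : ∀ p, p ∈ qs) :
    ∀ (k : ℕ) (p : Q) (c : J → ℤ), (∀ j, 0 ≤ c j) → (D.st^[k] (some p, c)).1 = none →
      ∃ t, LG (pats D js ix nu K h qs j0 p0) (enc js nu K p c ++ t) := by
  intro k
  induction k with
  | zero =>
    intro p c _ hk
    simp at hk
  | succ k ih =>
    intro p c hc hk
    rw [Function.iterate_succ_apply] at hk
    obtain ⟨σ, hσ⟩ := exists_subst (K := K) (D := D) hix p c hc
    have hmem : tp D js ix nu K h p (D.br p c) ∈ pats D js ix nu K h qs j0 p0 :=
      mem_pats.2 (Or.inr (Or.inr (Or.inr ⟨p, hqs p, _, rfl⟩)))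
    have hsingle : ∀ a ∈ js.map (fun j => K + (c j).toNat),
        WinN (pats D js ix nu K h qs j0 p0) [a] := by
      intro a ha
      rw [List.mem_map] at ha
      obtain ⟨j, _, rfl⟩ := ha
      exact ⟨[(K, some 0)], mem_pats.2 (Or.inr (Or.inl rfl)), fun _ => (c j).toNat, by
        simp [elN]⟩
    have hold : js.map (fun j => K + (c j).toNat) = (js.map (old D ix K p (D.br p c))).map (elN σ) := by
      rw [List.map_map]
      exact List.map_congr_left fun j _ => (hσ j).symm
    rcases hn : D.nxt p (D.br p c) with _ | p'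
    · refine ⟨[h], ?_⟩
      have hl : LG (pats D js ix nu K h qs j0 p0) [h] :=
        LG_cons (LG_nil _) (w := [h]) (by simp)
          ⟨[(h, none)], mem_pats.2 (Or.inr (Or.inr (Or.inl rfl))), fun _ => 0, by simp [elN]⟩
          (List.prefix_refl _)
      have hl2 := LG_append_of _ _ hl hsingle
      refine LG_cons hl2 (w := (tp D js ix nu K h p (D.br p c)).map (elN σ)) (by simp [tp])
        ⟨_, hmem, σ, rfl⟩ ?_
      refine ⟨[], ?_⟩
      simp only [tp, tl, hn, List.map_cons, List.map_append, List.append_nil, ← hold]
      simp [elN]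
    · have hst : D.st (some p, c) = (some p', c + D.vec p (D.br p c)) := by
        show (D.nxt p (D.br p c), _) = _
        rw [hn]
      rw [hst] at hk
      have hc' : ∀ j, 0 ≤ (c + D.vec p (D.br p c)) j := by
        have := D.st_nonneg (some p, c) hc
        rw [hst] at this
        exact this
      obtain ⟨t, ht⟩ := ih p' _ hc' hk
      refine ⟨enc js nu K p' (c + D.vec p (D.br p c)) ++ t, ?_⟩
      have hl2 := LG_append_of _ _ ht hsingle
      refine LG_cons hl2 (w := (tp D js ix nu K h p (D.br p c)).map (elN σ)) (by simp [tp])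
        ⟨_, hmem, σ, rfl⟩ ?_
      refine ⟨t, ?_⟩
      have hnew : (js.map (new D ix K p (D.br p c))).map (elN σ) =
          js.map (fun j => K + ((c + D.vec p (D.br p c)) j).toNat) := by
        rw [List.map_map]
        refine List.map_congr_left fun j _ => ?_
        rw [Function.comp_apply, elN_new p _ c hc σ hσ j]
      simp only [tp, tl, hn, List.map_cons, List.map_append, ← hold, hnew]
      simp [elN, enc]

theorem goodN_iff (hjs : ∀ j, j ∈ js) (hix : Function.Injective ix)
    (hnu : Function.Injective nu) (h0 : ∀ p, 0 < nu p) (h1 : ∀ p, nu p < h) (h2 : h < K)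
    (hqs : ∀ p, p ∈ qs) (n : ℕ) :
    GoodN (pats D js ix nu K h qs j0 p0) (K + n) ↔
      D.Halts (some p0, fun j => if j = j0 then (n : ℤ) else 0) := by
  have hcn : ∀ j, 0 ≤ (fun j => if j = j0 then (n : ℤ) else 0) j := by
    intro j
    dsimp only
    split_ifs <;> omega
  have hp00 := h0 p0
  have hp01 := h1 p0
  constructor
  · rintro ⟨l, hl, z, hz⟩
    obtain ⟨w, hw, ⟨pt, hpt, σ, rfl⟩, z', hz'⟩ := hl l (List.suffix_refl _) (by
      rw [← hz]; simp)
    rw [← hz] at hz'
    rw [mem_pats] at hpt
    rcases hpt with rfl | rfl | rfl | ⟨p1, hp1', b, rfl⟩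
    · simp only [sp, List.map_cons, List.cons_append, List.cons.injEq, List.nil_append] at hz'
      obtain ⟨_, e2, e3⟩ := hz'
      have e2' : σ 0 = n := by
        simp [elN] at e2
        omega
      refine halts_of_LG hjs hix hnu h0 h1 h2 (pre := [0, K + n]) (rest := z') _ _ _ hcn le_rfl
        (qs := qs) (j0 := j0) (p0 := p0) ?_
      rw [← hz, ← e3] at hl
      convert hl using 1
      simp only [enc, List.cons_append, List.nil_append, List.map_map]
      congr 3
      simp only [elN, List.cons_append, Option.elim_none, Nat.add_zero, List.cons.injEq,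
        List.append_cancel_right_eq, List.map_inj_left, Function.comp_apply, true_and]
      intro a _
      split_ifs <;> simp [e2']
    · exfalso
      simp [elN] at hz'
      omega
    · exfalso
      simp [elN] at hz'
      omega
    · exfalso
      have := h0 p1
      simp [tp, elN] at hz'
      omega
  · rintro ⟨k, hk⟩
    obtain ⟨t, ht⟩ := LG_of_halts (js := js) (ix := ix) (nu := nu) (K := K) (h := h) (qs := qs)
      (j0 := j0) (p0 := p0) hix hqs k p0 _ hcn hk
    refine ⟨0 :: (K + n) :: (enc js nu K p0 (fun j => if j = j0 then (n : ℤ) else 0) ++ t),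
      ?_, ⟨_, rfl⟩⟩
    refine LG_cons (LG_cons ht (w := [K + n]) (by simp)
      ⟨[(K, some 0)], mem_pats.2 (Or.inr (Or.inl rfl)), fun _ => n, by simp [elN]⟩ ⟨_, rfl⟩)
      (w := (sp js nu K j0 p0).map (elN fun _ => n)) (by simp [sp])
      ⟨_, mem_pats.2 (Or.inl rfl), _, rfl⟩ ?_
    refine ⟨t, ?_⟩
    simp only [sp, enc, List.map_cons, List.cons_append, List.map_map]
    simp only [elN, List.cons_append, Option.elim_none, Option.elim_some, Nat.add_zero,
      List.cons.injEq, List.append_cancel_right_eq, List.map_inj_left, Function.comp_apply,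
      true_and]
    intro a _
    split_ifs <;> simp

theorem pats_ne : ∀ p ∈ pats D js ix nu K h qs j0 p0, p ≠ [] := by
  intro p hp
  rw [mem_pats] at hp
  rcases hp with rfl | rfl | rfl | ⟨p1, hp1', b, rfl⟩
  · simp [sp]
  · simp
  · simp
  · simp [tp]

end mach

/-- For suitable patterns it is undecidable whether a locally good list begins with `0, n`. -/
theorem exists_pats : ∃ (P : List Pat) (f : ℕ → ℕ), (∀ p ∈ P, p ≠ []) ∧ Computable f ∧
    ¬ ComputablePred (fun n => GoodN P (f n)) := by
  classical
  obtain ⟨Q, hQ, M, q0, N, _, hN, hnc⟩ := exists_sys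
  have hF : Finite (RS M) := inferInstance
  obtain ⟨m, ⟨e⟩⟩ := Finite.exists_equiv_fin (RS M)
  let D := dm M q0 0
  let js : List (Bool × Bool) := [(false, true), (false, false), (true, true), (true, false)]
  let ix : Bool × Bool → ℕ := fun j => (if j.1 then 2 else 0) + (if j.2 then 1 else 0)
  let nu : RS M → ℕ := fun p => (e p : ℕ) + 1
  let qs : List (RS M) := (List.finRange m).map e.symm
  have hix : Function.Injective ix := by
    rintro ⟨a, b⟩ ⟨c, d⟩ hh
    cases a <;> cases b <;> cases c <;> cases d <;> simp_all [ix]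
  refine ⟨pats D js ix nu (m + 2) (m + 1) qs (false, true) (.d1 q0 (z0 M)),
    fun n => m + 2 + N n, pats_ne, ?_, ?_⟩
  · exact (Primrec.nat_add.to_comp.comp (Computable.const _) hN)
  · intro hc
    apply hnc
    refine hc.of_eq fun n => ?_
    rw [goodN_iff (D := D)]
    · have := dm_halts_iff M q0 0 q0 (ini (N n))
      rw [← this]
      have e1 : (fun j : Bool × Bool => if j = (false, true) then ((N n : ℕ) : ℤ) else 0) =
          v4 (ini (N n) true) (ini (N n) false) 0 0 := by
        funext ⟨a, b⟩
        cases a <;> cases b <;> simp [v4, ini]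
      rw [e1]
    · rintro ⟨a, b⟩
      cases a <;> cases b <;> simp [js]
    · exact hix
    · intro a b hab
      have : (e a : ℕ) = e b := by simpa [nu] using hab
      exact e.injective (Fin.ext this)
    · intro p
      simp [nu]
    · intro p
      have := (e p).2
      simp only [nu]
      omega
    · omega
    · intro p
      simp only [qs, List.mem_map]
      exact ⟨e p, List.mem_finRange _, e.symm_apply_apply p⟩

end Pool.Agent.R569.OSR
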