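import Pool.Agent.R569.OSR.Lists

set_option autoImplicit false

/-!
# The terms and the one-step rewriting relation

Terms over the constants `z`, `e`, `a 0 … a 16`, a unary symbol `s` and a binary symbol `c`, and the
relation of one-step rewriting for the rules given by a list of patterns.
-/

namespace Pool.Agent.R569.OSR

/-- ground terms -/
inductive Tm : Type
  | z : Tm
  | e : Tm
  | a : Fin 17 → Tm
  | s : Tm → Tm
  | c : Tm → Tm → Tm

open Tm

/-- `s` iterated -/
def sn : ℕ → Tm → Tm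
  | 0, t => t
  | n + 1, t => s (sn n t)

/-- numerals -/
def num (n : ℕ) : Tm := sn n z

/-- a list of numbers followed by `g` -/
def pre : List ℕ → Tm → Tm
  | [], g => g
  | m :: l, g => c (num m) (pre l g)

/-- a list of numbers as a term -/
abbrev hst (l : List ℕ) : Tm := pre l e

/-- successor on the cycles of marks -/
def nx : Fin 17 → Fin 17 := ![1, 0, 3, 4, 2, 6, 7, 8, 9, 5, 11, 12, 13, 14, 15, 16, 10]

/-- edges between marks -/
def cg (i j : Fin 17) : Bool :=
  decide (j = nx i) || (decide (i = 0 ∨ i = 10) && decide (j = 2 ∨ j = 5))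

/-- instance of an entry of a pattern -/
def el (σ : ℕ → Tm) (x : ℕ × Option ℕ) : Tm := sn x.1 (x.2.elim z σ)

/-- instance of a pattern -/
def inst (σ : ℕ → Tm) : Pat → Tm
  | [] => e
  | x :: p => c (el σ x) (inst σ p)

/-- ill-formed pairs below `s` -/
def ErrS (t : Tm) : Prop := t = e ∨ ∃ u v, t = c u v

/-- ill-formed pairs below `c` -/
def ErrC (t u : Tm) : Prop := t = e ∨ (∃ v w, t = c v w) ∨ u = z ∨ ∃ v, u = s v

/-- one-step rewriting -/
inductive St (P : List Pat) : Tm → Tm → Prop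
  | sz (t : Tm) : St P (s t) z
  | ce (t u : Tm) : St P (c t u) e
  | ck (t u : Tm) : St P (c t u) (a 0)
  | ck' (t u : Tm) : St P (c t u) (a 10)
  | win {p : Pat} {σ : ℕ → Tm} {t : Tm} (hp : p ∈ P) (hn : p ≠ []) (ht : t = inst σ p) :
      St P t (a 9)
  | e2 : St P e (a 2)
  | e5 : St P e (a 5)
  | cgs {i j : Fin 17} (h : cg i j = true) : St P (a i) (a j)
  | ls {t : Tm} (h : ErrS t) : St P (s t) (s t)
  | lc {t u : Tm} (h : ErrC t u) : St P (c t u) (c t u)
  | s {t t' : Tm} (h : St P t t') : St P (s t) (s t')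
  | cl {t t' : Tm} (u : Tm) (h : St P t t') : St P (c t u) (c t' u)
  | cr {u u' : Tm} (t : Tm) (h : St P u u') : St P (c t u) (c t u')

variable {P : List Pat}

/-! ### Basic facts -/

theorem pre_append (l l' : List ℕ) (g : Tm) : pre (l ++ l') g = pre l (pre l' g) := by
  induction l with
  | nil => rfl
  | cons m l ih => simp [pre, ih]

@[simp] theorem pre_nil (g : Tm) : pre [] g = g := rfl

@[simp] theorem pre_cons (m : ℕ) (l : List ℕ) (g : Tm) : pre (m :: l) g = c (num m) (pre l g) := rfl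

theorem sn_add (m n : ℕ) (t : Tm) : sn (m + n) t = sn m (sn n t) := by
  induction m with
  | zero => simp [sn]
  | succ m ih => rw [Nat.add_right_comm]; simp [sn, ih]

theorem num_succ (n : ℕ) : num (n + 1) = s (num n) := rfl

theorem num_ne_e (n : ℕ) : num n ≠ e := by
  cases n <;> simp [num, sn]

theorem num_ne_c (n : ℕ) (t u : Tm) : num n ≠ c t u := by
  cases n <;> simp [num, sn]

theorem num_inj {m n : ℕ} (h : num m = num n) : m = n := by
  induction m generalizing n with
  | zero => cases n with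
    | zero => rfl
    | succ n => simp [num, sn] at h
  | succ m ih => cases n with
    | zero => simp [num, sn] at h
    | succ n =>
      rw [num_succ, num_succ, Tm.s.injEq] at h
      rw [ih h]

/-- value of a numeral -/
def nval : Tm → ℕ
  | s t => nval t + 1
  | _ => 0

theorem sn_eq_num {k m : ℕ} {t : Tm} (h : sn k t = num m) : m = k + nval t ∧ t = num (nval t) := by
  induction k generalizing m with
  | zero =>
    simp only [sn] at h
    subst h
    have : ∀ m, nval (num m) = m := by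
      intro m
      induction m with
      | zero => rfl
      | succ m ih => rw [num_succ, nval, ih]
    rw [this]
    simp
  | succ k ih =>
    cases m with
    | zero => simp [num, sn] at h
    | succ m =>
      rw [num_succ, sn, Tm.s.injEq] at h
      obtain ⟨h1, h2⟩ := ih h
      exact ⟨by omega, h2⟩

/-- weight -/
def W : Tm → ℕ
  | z => 0
  | e => 1
  | a _ => 0
  | s t => W t + 2
  | c t u => W t + W u + 2

theorem W_sn (n : ℕ) (t : Tm) : W (sn n t) = 2 * n + W t := by
  induction n with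
  | zero => simp [sn]
  | succ n ih => simp only [sn, W, ih]; omega

theorem W_num (n : ℕ) : W (num n) = 2 * n := by
  rw [num, W_sn]; rfl

theorem W_pre (l : List ℕ) (g : Tm) : W (pre l g) = 2 * l.sum + 2 * l.length + W g := by
  induction l with
  | nil => simp
  | cons m l ih => simp only [pre, W, ih, W_num, List.sum_cons, List.length_cons]; omega

theorem W_le {t u : Tm} (h : St P t u) : W u ≤ W t := by
  induction h <;> simp only [W] at * <;> omega

/-- leaves -/
def Lf (g : Tm) : Prop := g = e ∨ ∃ i, g = a i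

theorem pre_ne_z {l : List ℕ} {g : Tm} (hg : Lf g) : pre l g ≠ z := by
  rcases hg with rfl | ⟨i, rfl⟩ <;> cases l <;> simp

theorem pre_ne_s {l : List ℕ} {g : Tm} (hg : Lf g) (v : Tm) : pre l g ≠ s v := by
  rcases hg with rfl | ⟨i, rfl⟩ <;> cases l <;> simp

/-- end of the spine -/
def fin : Tm → Tm
  | c _ u => fin u
  | t => t

theorem fin_pre (l : List ℕ) (g : Tm) : fin (pre l g) = fin g := by
  induction l with
  | nil => rfl
  | cons m l ih => simpa [pre, fin] using ih

theorem fin_inst (σ : ℕ → Tm) (p : Pat) : fin (inst σ p) = e := by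
  induction p with
  | nil => rfl
  | cons x p ih => simpa [inst, fin] using ih

theorem fin_Lf {g : Tm} (hg : Lf g) : fin g = g := by
  rcases hg with rfl | ⟨i, rfl⟩ <;> rfl

theorem pre_eq_inst {σ : ℕ → Tm} {p : Pat} {q : List ℕ} {g : Tm} (hg : Lf g)
    (h : pre q g = inst σ p) : g = e ∧ q = p.map (elN (fun i => nval (σ i))) := by
  have h1 : g = e := by
    have := congrArg fin h
    rwa [fin_pre, fin_inst, fin_Lf hg] at this
  refine ⟨h1, ?_⟩
  subst h1
  induction p generalizing q with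
  | nil => cases q with
    | nil => rfl
    | cons m q => simp [inst] at h
  | cons x p ih => cases q with
    | nil => simp [inst] at h
    | cons m q =>
      simp only [pre, inst, Tm.c.injEq] at h
      rw [List.map_cons, ← ih h.2]
      congr 1
      have h2 := h.1.symm
      unfold el at h2
      obtain ⟨h3, h4⟩ := sn_eq_num h2
      rw [h3]
      unfold elN
      rcases x with ⟨k, _ | i⟩ <;> rfl

theorem inst_num (σ : ℕ → ℕ) (p : Pat) : inst (fun i => num (σ i)) p = hst (p.map (elN σ)) := by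
  induction p with
  | nil => rfl
  | cons x p ih =>
    simp only [inst, List.map_cons, pre_cons, ih]
    congr 1
    rcases x with ⟨k, _ | i⟩
    · simp [el, elN, num]
    · simp only [el, elN, Option.elim_some, num, sn_add]

theorem winN_iff {q : List ℕ} : WinN P q ↔ ∃ p ∈ P, ∃ σ, hst q = inst σ p := by
  constructor
  · rintro ⟨p, hp, σ, rfl⟩
    exact ⟨p, hp, _, (inst_num σ p).symm⟩
  · rintro ⟨p, hp, σ, h⟩
    exact ⟨p, hp, _, (pre_eq_inst (Or.inl rfl) h).2⟩

/-! ### Steps backwards -/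

theorem pred_a {t : Tm} {i : Fin 17} (h : St P t (a i)) :
    ((∃ u v, t = c u v) ∧ (i = 0 ∨ i = 10)) ∨ (i = 9 ∧ ∃ σ p, t = inst σ p) ∨
      (t = e ∧ (i = 2 ∨ i = 5)) ∨ ∃ j, t = a j ∧ cg j i = true := by
  generalize hb : a i = b at h
  cases h with
  | ck t u => cases hb; exact Or.inl ⟨⟨_, _, rfl⟩, Or.inl rfl⟩
  | ck' t u => cases hb; exact Or.inl ⟨⟨_, _, rfl⟩, Or.inr rfl⟩
  | win hp hn ht => cases hb; exact Or.inr (Or.inl ⟨rfl, _, _, ht⟩)
  | e2 => cases hb; exact Or.inr (Or.inr (Or.inl ⟨rfl, Or.inl rfl⟩))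
  | e5 => cases hb; exact Or.inr (Or.inr (Or.inl ⟨rfl, Or.inr rfl⟩))
  | cgs h => cases hb; exact Or.inr (Or.inr (Or.inr ⟨_, rfl, h⟩))
  | sz => cases hb
  | ce => cases hb
  | ls => cases hb
  | lc => cases hb
  | s => cases hb
  | cl => cases hb
  | cr => cases hb

theorem pred_c {t u v : Tm} (h : St P t (c u v)) :
    (t = c u v ∧ ErrC u v) ∨ (∃ u', t = c u' v ∧ St P u' u) ∨ ∃ v', t = c u v' ∧ St P v' v := by
  generalize hb : c u v = b at h
  cases h with
  | lc h => cases hb; exact Or.inl ⟨rfl, h⟩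
  | cl u h => cases hb; exact Or.inr (Or.inl ⟨_, rfl, h⟩)
  | cr t h => cases hb; exact Or.inr (Or.inr ⟨_, rfl, h⟩)
  | ck t u => cases hb
  | ck' t u => cases hb
  | win hp hn ht => cases hb
  | e2 => cases hb
  | e5 => cases hb
  | cgs h => cases hb
  | sz => cases hb
  | ce => cases hb
  | ls => cases hb
  | s => cases hb

theorem pred_num {t : Tm} {m : ℕ} (h : St P t (num m)) : ∃ Z, t = sn (m + 1) Z := by
  induction m generalizing t with
  | zero =>
    generalize hb : num 0 = b at h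
    cases h with
    | sz t => exact ⟨t, rfl⟩
    | ce => cases hb
    | ck => cases hb
    | ck' => cases hb
    | win => cases hb
    | e2 => cases hb
    | e5 => cases hb
    | cgs => cases hb
    | ls => cases hb
    | lc => cases hb
    | s => cases hb
    | cl => cases hb
    | cr => cases hb
  | succ m ih =>
    generalize hb : num (m + 1) = b at h
    rw [num_succ] at hb
    cases h with
    | sz t => cases hb
    | ce => cases hb
    | ck => cases hb
    | ck' => cases hb
    | win => cases hb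
    | e2 => cases hb
    | e5 => cases hb
    | cgs => cases hb
    | ls h =>
      cases hb
      rcases h with h | ⟨_, _, h⟩
      · exact absurd h (num_ne_e _)
      · exact absurd h (num_ne_c _ _ _)
    | lc => cases hb
    | s h =>
      cases hb
      obtain ⟨Z, rfl⟩ := ih h
      exact ⟨Z, rfl⟩
    | cl => cases hb
    | cr => cases hb

theorem pred_pre {t : Tm} {L : List ℕ} {i : Fin 17} (h : St P t (pre L (a i))) :
    ((i = 0 ∨ i = 10) ∧ ∃ u v, t = pre L (c u v)) ∨ (i = 9 ∧ ∃ σ p, t = pre L (inst σ p)) ∨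
      ((i = 2 ∨ i = 5) ∧ t = hst L) ∨ (∃ j, cg j i = true ∧ t = pre L (a j)) ∨
      ∃ p m q Z, L = p ++ m :: q ∧ t = pre p (c (sn (m + 1) Z) (pre q (a i))) := by
  induction L generalizing t with
  | nil =>
    rcases pred_a h with ⟨⟨u, v, rfl⟩, hi⟩ | ⟨hi, σ, p, rfl⟩ | ⟨rfl, hi⟩ | ⟨j, rfl, hj⟩
    · exact Or.inl ⟨hi, u, v, rfl⟩
    · exact Or.inr (Or.inl ⟨hi, σ, p, rfl⟩)
    · exact Or.inr (Or.inr (Or.inl ⟨hi, rfl⟩))
    · exact Or.inr (Or.inr (Or.inr (Or.inl ⟨j, hj, rfl⟩)))
  | cons n L ih =>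
    rw [pre_cons] at h
    rcases pred_c h with ⟨rfl, h1⟩ | ⟨u, rfl, h1⟩ | ⟨v, rfl, h1⟩
    · exfalso
      rcases h1 with h1 | ⟨_, _, h1⟩ | h1 | ⟨_, h1⟩
      · exact num_ne_e _ h1
      · exact num_ne_c _ _ _ h1
      · exact pre_ne_z (Or.inr ⟨i, rfl⟩) h1
      · exact pre_ne_s (Or.inr ⟨i, rfl⟩) _ h1
    · obtain ⟨Z, rfl⟩ := pred_num h1
      exact Or.inr (Or.inr (Or.inr (Or.inr ⟨[], n, L, Z, rfl, rfl⟩)))
    · rcases ih h1 with ⟨hi, u, w, rfl⟩ | ⟨hi, σ, p, rfl⟩ | ⟨hi, rfl⟩ | ⟨j, hj, rfl⟩ |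
        ⟨p, m, q, Z, rfl, rfl⟩
      · exact Or.inl ⟨hi, u, w, rfl⟩
      · exact Or.inr (Or.inl ⟨hi, σ, p, rfl⟩)
      · exact Or.inr (Or.inr (Or.inl ⟨hi, rfl⟩))
      · exact Or.inr (Or.inr (Or.inr (Or.inl ⟨j, hj, rfl⟩)))
      · exact Or.inr (Or.inr (Or.inr (Or.inr ⟨n :: p, m, q, Z, rfl, rfl⟩)))

/-! ### Steps forwards -/

theorem succ_num {t : Tm} {m : ℕ} (h : St P (num m) t) : ∃ k < m, t = num k := by
  induction m generalizing t with
  | zero =>
    generalize hb : num 0 = b at h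
    cases h with
    | sz t => cases hb
    | ce => cases hb
    | ck => cases hb
    | ck' => cases hb
    | @win p σ t hp hn ht =>
      cases p with
      | nil => exact absurd rfl hn
      | cons x p => subst ht; cases hb
    | e2 => cases hb
    | e5 => cases hb
    | cgs => cases hb
    | ls => cases hb
    | lc => cases hb
    | s => cases hb
    | cl => cases hb
    | cr => cases hb
  | succ m ih =>
    generalize hb : num (m + 1) = b at h
    rw [num_succ] at hb
    cases h with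
    | sz t => exact ⟨0, by omega, rfl⟩
    | ce => cases hb
    | ck => cases hb
    | ck' => cases hb
    | @win p σ t hp hn ht =>
      cases p with
      | nil => exact absurd rfl hn
      | cons x p => subst ht; cases hb
    | e2 => cases hb
    | e5 => cases hb
    | cgs => cases hb
    | ls h =>
      cases hb
      rcases h with h | ⟨_, _, h⟩
      · exact absurd h (num_ne_e _)
      · exact absurd h (num_ne_c _ _ _)
    | lc => cases hb
    | s h =>
      cases hb
      obtain ⟨k, hk, rfl⟩ := ih h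
      exact ⟨k + 1, by omega, rfl⟩
    | cl => cases hb
    | cr => cases hb

theorem succ_c {t u v : Tm} (h : St P (c t u) v) :
    v = e ∨ v = a 0 ∨ v = a 10 ∨ (v = a 9 ∧ ∃ p ∈ P, ∃ σ, c t u = inst σ p) ∨
      (v = c t u ∧ ErrC t u) ∨ (∃ t', St P t t' ∧ v = c t' u) ∨
      ∃ u', St P u u' ∧ v = c t u' := by
  generalize hb : c t u = b at h
  cases h with
  | sz t => cases hb
  | ce => exact Or.inl rfl
  | ck => exact Or.inr (Or.inl rfl)
  | ck' => exact Or.inr (Or.inr (Or.inl rfl))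
  | @win p σ t hp hn ht => exact Or.inr (Or.inr (Or.inr (Or.inl ⟨rfl, p, hp, σ, ht⟩)))
  | e2 => cases hb
  | e5 => cases hb
  | cgs => cases hb
  | ls h => cases hb
  | lc h => cases hb; exact Or.inr (Or.inr (Or.inr (Or.inr (Or.inl ⟨rfl, h⟩))))
  | s h => cases hb
  | cl u h => cases hb; exact Or.inr (Or.inr (Or.inr (Or.inr (Or.inr (Or.inl ⟨_, h, rfl⟩)))))
  | cr t h => cases hb; exact Or.inr (Or.inr (Or.inr (Or.inr (Or.inr (Or.inr ⟨_, h, rfl⟩)))))

/-- one entry made smaller -/
def NC (l l' : List ℕ) : Prop := ∃ p m q k, l = p ++ m :: q ∧ k < m ∧ l' = p ++ k :: q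

theorem NC_cons {l l' : List ℕ} (n : ℕ) (h : NC l l') : NC (n :: l) (n :: l') := by
  obtain ⟨p, m, q, k, rfl, hk, rfl⟩ := h
  exact ⟨n :: p, m, q, k, rfl, hk, rfl⟩

theorem succ_pre {l : List ℕ} {g t : Tm} (hg : Lf g) (h : St P (pre l g) t) :
    (∃ l', NC l l' ∧ t = pre l' g) ∨
    (∃ p q, l = p ++ q ∧ q ≠ [] ∧ (t = hst p ∨ t = pre p (a 0) ∨ t = pre p (a 10))) ∨
    (g = e ∧ ∃ p q, l = p ++ q ∧ q ≠ [] ∧ WinN P q ∧ t = pre p (a 9)) ∨
    ∃ g', St P g g' ∧ t = pre l g' := by
  induction l generalizing t with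
  | nil => exact Or.inr (Or.inr (Or.inr ⟨t, h, rfl⟩))
  | cons m l ih =>
    rw [pre_cons] at h
    rcases succ_c h with rfl | rfl | rfl | ⟨rfl, p, hp, σ, h1⟩ | ⟨rfl, h1⟩ | ⟨t', h1, rfl⟩ |
      ⟨u', h1, rfl⟩
    · exact Or.inr (Or.inl ⟨[], m :: l, rfl, by simp, Or.inl rfl⟩)
    · exact Or.inr (Or.inl ⟨[], m :: l, rfl, by simp, Or.inr (Or.inl rfl)⟩)
    · exact Or.inr (Or.inl ⟨[], m :: l, rfl, by simp, Or.inr (Or.inr rfl)⟩)
    · rw [← pre_cons] at h1
      obtain ⟨h2, h3⟩ := pre_eq_inst hg h1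
      subst h2
      exact Or.inr (Or.inr (Or.inl ⟨rfl, [], m :: l, rfl, by simp,
        winN_iff.2 ⟨p, hp, σ, h1⟩, rfl⟩))
    · exfalso
      rcases h1 with h1 | ⟨_, _, h1⟩ | h1 | ⟨_, h1⟩
      · exact num_ne_e _ h1
      · exact num_ne_c _ _ _ h1
      · exact pre_ne_z hg h1
      · exact pre_ne_s hg _ h1
    · obtain ⟨k, hk, rfl⟩ := succ_num h1
      exact Or.inl ⟨k :: l, ⟨[], m, l, k, rfl, hk, rfl⟩, rfl⟩
    · rcases ih h1 with ⟨l', h2, rfl⟩ | ⟨p, q, rfl, hq, h2⟩ | ⟨rfl, p, q, rfl, hq, hw, rfl⟩ |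
        ⟨g', hg', rfl⟩
      · exact Or.inl ⟨m :: l', NC_cons m h2, rfl⟩
      · refine Or.inr (Or.inl ⟨m :: p, q, rfl, hq, ?_⟩)
        rcases h2 with rfl | rfl | rfl
        · exact Or.inl rfl
        · exact Or.inr (Or.inl rfl)
        · exact Or.inr (Or.inr rfl)
      · exact Or.inr (Or.inr (Or.inl ⟨rfl, m :: p, q, rfl, hq, hw, rfl⟩))
      · exact Or.inr (Or.inr (Or.inr ⟨g', hg', rfl⟩))

theorem succ_e {t : Tm} (h : St P e t) : t = a 2 ∨ t = a 5 := by
  generalize hb : e = b at h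
  cases h with
  | sz t => cases hb
  | ce => cases hb
  | ck => cases hb
  | ck' => cases hb
  | @win p σ t hp hn ht =>
    cases p with
    | nil => exact absurd rfl hn
    | cons x p => subst ht; cases hb
  | e2 => exact Or.inl rfl
  | e5 => exact Or.inr rfl
  | cgs => cases hb
  | ls h => cases hb
  | lc h => cases hb
  | s h => cases hb
  | cl u h => cases hb
  | cr t h => cases hb

theorem succ_a {i : Fin 17} {t : Tm} (h : St P (a i) t) : ∃ j, cg i j = true ∧ t = a j := by
  generalize hb : a i = b at h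
  cases h with
  | sz t => cases hb
  | ce => cases hb
  | ck => cases hb
  | ck' => cases hb
  | @win p σ t hp hn ht =>
    cases p with
    | nil => exact absurd rfl hn
    | cons x p => subst ht; cases hb
  | e2 => cases hb
  | e5 => cases hb
  | cgs h => cases hb; exact ⟨_, h, rfl⟩
  | ls h => cases hb
  | lc h => cases hb
  | s h => cases hb
  | cl u h => cases hb
  | cr t h => cases hb

/-! ### Steps below a list -/

theorem St_pre {g g' : Tm} (l : List ℕ) (h : St P g g') : St P (pre l g) (pre l g') := by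
  induction l with
  | nil => exact h
  | cons m l ih => exact .cr _ ih

theorem St_num {m k : ℕ} (h : k < m) : St P (num m) (num k) := by
  induction k generalizing m with
  | zero =>
    obtain ⟨n, rfl⟩ := Nat.exists_eq_succ_of_ne_zero (by omega : m ≠ 0)
    exact .sz _
  | succ k ih =>
    obtain ⟨n, rfl⟩ := Nat.exists_eq_succ_of_ne_zero (by omega : m ≠ 0)
    exact .s (ih (by omega))

theorem St_NC {l l' : List ℕ} (g : Tm) (h : NC l l') : St P (pre l g) (pre l' g) := by
  obtain ⟨p, m, q, k, rfl, hk, rfl⟩ := h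
  rw [pre_append, pre_append]
  exact St_pre _ (.cl _ (St_num hk))

theorem pre_ne_nil {q : List ℕ} (hq : q ≠ []) (g : Tm) : ∃ t u, pre q g = c t u := by
  cases q with
  | nil => exact absurd rfl hq
  | cons m q => exact ⟨_, _, rfl⟩

theorem St_cut {p q : List ℕ} (hq : q ≠ []) (g : Tm) :
    St P (pre (p ++ q) g) (hst p) ∧ St P (pre (p ++ q) g) (pre p (a 0)) ∧
      St P (pre (p ++ q) g) (pre p (a 10)) := by
  rw [pre_append]
  obtain ⟨t, u, h⟩ := pre_ne_nil hq g
  rw [h]
  exact ⟨St_pre _ (.ce _ _), St_pre _ (.ck _ _), St_pre _ (.ck' _ _)⟩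

theorem St_win {p q : List ℕ} (hq : q ≠ []) (hw : WinN P q) :
    St P (hst (p ++ q)) (pre p (a 9)) := by
  show St P (pre (p ++ q) e) _
  rw [pre_append]
  obtain ⟨pt, hp, σ, h⟩ := winN_iff.1 hw
  refine St_pre _ (.win hp ?_ h)
  rintro rfl
  cases q with
  | nil => exact hq rfl
  | cons m q => simp [inst] at h

theorem St_cg (l : List ℕ) {i j : Fin 17} (h : cg i j = true) :
    St P (pre l (a i)) (pre l (a j)) := St_pre _ (.cgs h)

/-! ### Walks -/

/-- walks of a given length -/
def Wk (P : List Pat) : ℕ → Tm → Tm → Prop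
  | 0, x, y => x = y
  | k + 1, x, y => ∃ u, St P x u ∧ Wk P k u y

/-- closed walks of a given length -/
def Cy (P : List Pat) (k : ℕ) (x : Tm) : Prop := Wk P k x x

theorem W_le_Wk {k : ℕ} {x y : Tm} (h : Wk P k x y) : W y ≤ W x := by
  induction k generalizing x with
  | zero => rw [show x = y from h]
  | succ k ih =>
    obtain ⟨u, h1, h2⟩ := h
    exact (ih h2).trans (W_le h1)

theorem Wk_s {k : ℕ} {x y : Tm} (h : Wk P k x y) : Wk P k (s x) (s y) := by
  induction k generalizing x with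
  | zero => rw [show x = y from h]; rfl
  | succ k ih =>
    obtain ⟨u, h1, h2⟩ := h
    exact ⟨_, .s h1, ih h2⟩

theorem Wk_cl {k : ℕ} {x y : Tm} (t : Tm) (h : Wk P k x y) : Wk P k (c x t) (c y t) := by
  induction k generalizing x with
  | zero => rw [show x = y from h]; rfl
  | succ k ih =>
    obtain ⟨u, h1, h2⟩ := h
    exact ⟨_, .cl _ h1, ih h2⟩

theorem Wk_cr {k : ℕ} {x y : Tm} (t : Tm) (h : Wk P k x y) : Wk P k (c t x) (c t y) := by
  induction k generalizing x with
  | zero => rw [show x = y from h]; rfl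
  | succ k ih =>
    obtain ⟨u, h1, h2⟩ := h
    exact ⟨_, .cr _ h1, ih h2⟩

theorem Wk_pre {k : ℕ} {x y : Tm} (l : List ℕ) (h : Wk P k x y) : Wk P k (pre l x) (pre l y) := by
  induction l with
  | nil => exact h
  | cons m l ih => exact Wk_cr _ ih

/-- marks reachable in a given number of steps -/
def rs : ℕ → Fin 17 → List (Fin 17)
  | 0, i => [i]
  | k + 1, i => ((List.finRange 17).filter fun j => (rs k i).any fun l => cg l j)

theorem NC_sum {l l' : List ℕ} (h : NC l l') : l'.sum < l.sum ∧ l'.length = l.length := by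
  obtain ⟨p, m, q, k, rfl, hk, rfl⟩ := h
  simp
  omega

theorem W_NC {l l' : List ℕ} (g : Tm) (h : NC l l') : W (pre l' g) < W (pre l g) := by
  rw [W_pre, W_pre]
  have := NC_sum h
  omega

theorem W_cut {p q : List ℕ} (hq : q ≠ []) (g g' : Tm) (hg : W g' ≤ 1) :
    W (pre p g') < W (pre (p ++ q) g) := by
  rw [W_pre, W_pre]
  have : 0 < q.length := List.length_pos_iff.2 hq
  simp
  omega

/-- a step which keeps the weight only moves a mark -/
theorem St_W {l : List ℕ} {i : Fin 17} {t : Tm} (h : St P (pre l (a i)) t)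
    (hW : W (pre l (a i)) ≤ W t) : ∃ j, cg i j = true ∧ t = pre l (a j) := by
  rcases succ_pre (Or.inr ⟨i, rfl⟩) h with ⟨l', h2, rfl⟩ | ⟨p, q, rfl, hq, h2⟩ |
    ⟨h2, p, q, rfl, hq, hw, rfl⟩ | ⟨g', hg', rfl⟩
  · have := W_NC (a i) h2
    omega
  · exfalso
    rcases h2 with rfl | rfl | rfl
    · have : W (hst p) < _ := W_cut (p := p) hq (a i) e (by simp [W])
      omega
    · have := W_cut (p := p) hq (a i) (a 0) (by simp [W])
      omega
    · have := W_cut (p := p) hq (a i) (a 10) (by simp [W])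
      omega
  · cases h2
  · obtain ⟨j, hj, rfl⟩ := succ_a hg'
    exact ⟨j, hj, rfl⟩

theorem Wk_mark_aux {l : List ℕ} {k : ℕ} {y : Tm} {i : Fin 17} {k' : ℕ} {i' : Fin 17}
    (h : Wk P k (pre l (a i)) y) (hW : W (pre l (a i)) ≤ W y) (hi : i ∈ rs k' i') :
    ∃ j, j ∈ rs (k' + k) i' ∧ y = pre l (a j) := by
  induction k generalizing i k' with
  | zero => exact ⟨i, hi, (show _ = y from h).symm⟩
  | succ k ih =>
    obtain ⟨u, h1, h2⟩ := h
    have h3 := W_le_Wk h2
    obtain ⟨j, hj, rfl⟩ := St_W h1 (by omega)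
    have h4 : W (pre l (a j)) = W (pre l (a i)) := by rw [W_pre, W_pre]; rfl
    have h5 : j ∈ rs (k' + 1) i' := by
      simp only [rs, List.mem_filter, List.mem_finRange, true_and, List.any_eq_true]
      exact ⟨i, hi, hj⟩
    obtain ⟨j', h6, h7⟩ := ih h2 (by omega) h5
    exact ⟨j', by rw [show k' + (k + 1) = k' + 1 + k by omega]; exact h6, h7⟩

theorem pre_a_inj {l : List ℕ} {i j : Fin 17} (h : pre l (a i) = pre l (a j)) : i = j := by
  have := congrArg fin h
  rw [fin_pre, fin_pre] at this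
  simpa [fin] using this

theorem Cy_mark {l : List ℕ} {k : ℕ} {i : Fin 17} (h : Cy P k (pre l (a i))) : i ∈ rs k i := by
  obtain ⟨j, h1, h2⟩ := Wk_mark_aux (k' := 0) (i' := i) h le_rfl (by simp [rs])
  rw [← pre_a_inj h2] at h1
  simpa using h1

theorem rs_2 : ∀ i : Fin 17, i ∈ rs 2 i → i = 0 ∨ i = 1 := by decide
theorem rs_3 : ∀ i : Fin 17, i ∈ rs 3 i → i = 2 ∨ i = 3 ∨ i = 4 := by decide
theorem rs_5 : ∀ i : Fin 17, i ∈ rs 5 i → i = 5 ∨ i = 6 ∨ i = 7 ∨ i = 8 ∨ i = 9 := by decide
theorem rs_7 : ∀ i : Fin 17, i ∈ rs 7 i → 10 ≤ i := by decide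

/-- a walk in the graph of marks -/
theorem Wk_rs {k : ℕ} {i j : Fin 17} (l : List ℕ) (h : j ∈ rs k i) :
    ∀ {m : ℕ} {y : Tm}, Wk P m (pre l (a j)) y → Wk P (k + m) (pre l (a i)) y := by
  induction k generalizing j with
  | zero =>
    intro m y hy
    simp only [rs, List.mem_singleton] at h
    subst h
    simpa using hy
  | succ k ih =>
    intro m y hy
    simp only [rs, List.mem_filter, List.mem_finRange, true_and, List.any_eq_true] at h
    obtain ⟨u, hu, hu2⟩ := h
    have := ih hu (m := m + 1) (y := y) ⟨_, St_cg l hu2, hy⟩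
    rwa [show k + 1 + m = k + (m + 1) by omega]

theorem Cy_of_rs {k : ℕ} {i : Fin 17} (l : List ℕ) (h : i ∈ rs k i) : Cy P k (pre l (a i)) :=
  Wk_rs l h (m := 0) rfl

theorem rs_any : ∀ i : Fin 17, i ∈ rs 2 i ∨ i ∈ rs 3 i ∨ i ∈ rs 5 i ∨ i ∈ rs 7 i := by decide

end Pool.Agent.R569.OSR
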