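import Pool.Agent.R569.OSR.Form

set_option autoImplicit false

/-!
# The relation `St` is one-step rewriting over a finite signature
-/

namespace Pool.Agent.R569.OSR

open FirstOrder.Language (Term)

/-- function symbols: constants `z`, `e`, `a i`, a unary symbol and a binary symbol -/
inductive Fs : ℕ → Type
  | z : Fs 0
  | e : Fs 0
  | a : Fin 17 → Fs 0
  | s : Fs 1
  | c : Fs 2

/-- the signature -/
def LL : FirstOrder.Language.{0, 0} := ⟨Fs, fun _ => Empty⟩

section

variable {α : Type}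

theorem func_congr {n : ℕ} {f : LL.Functions n} {ts us : Fin n → LL.Term α}
    (h : ∀ i, ts i = us i) :
    (FirstOrder.Language.Term.func f ts : LL.Term α) = FirstOrder.Language.Term.func f us := by
  rw [funext h]

def zL : LL.Term α := .func (l := 0) Fs.z (fun i => i.elim0)
def eL : LL.Term α := .func (l := 0) Fs.e (fun i => i.elim0)
def aL (j : Fin 17) : LL.Term α := .func (l := 0) (Fs.a j) (fun i => i.elim0)
def sL (t : LL.Term α) : LL.Term α := .func (l := 1) Fs.s (fun _ => t)
def cL (t u : LL.Term α) : LL.Term α := .func (l := 2) Fs.c (fun i => if i = 0 then t else u)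

/-- `s` iterated -/
def snL : ℕ → LL.Term α → LL.Term α
  | 0, t => t
  | n + 1, t => sL (snL n t)

end

/-- an entry of a pattern, as a term with variables -/
def elL (x : ℕ × Option ℕ) : LL.Term ℕ := snL x.1 (x.2.elim zL fun i => .var i)

/-- a pattern, as a term with variables -/
def instL : Pat → LL.Term ℕ
  | [] => eL
  | x :: p => cL (elL x) (instL p)

/-- the rules -/
def RL (P : List Pat) : List (LL.Term ℕ × LL.Term ℕ) :=
  [(sL (.var 0), zL), (cL (.var 0) (.var 1), eL), (cL (.var 0) (.var 1), aL 0),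
    (cL (.var 0) (.var 1), aL 10), (eL, aL 2), (eL, aL 5), (sL eL, sL eL),
    (sL (cL (.var 0) (.var 1)), sL (cL (.var 0) (.var 1))), (cL eL (.var 0), cL eL (.var 0)),
    (cL (cL (.var 0) (.var 1)) (.var 2), cL (cL (.var 0) (.var 1)) (.var 2)),
    (cL (.var 0) zL, cL (.var 0) zL), (cL (.var 0) (sL (.var 1)), cL (.var 0) (sL (.var 1)))] ++
  P.map (fun p => (instL p, aL 9)) ++
  (List.finRange 17).flatMap (fun i => ((List.finRange 17).filter (cg i)).map fun j => (aL i, aL j))

/-- ground terms as terms over the signature -/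
def toL : Tm → LL.Term Empty
  | .z => zL
  | .e => eL
  | .a i => aL i
  | .s t => sL (toL t)
  | .c t u => cL (toL t) (toL u)

/-- terms over the signature as ground terms -/
def ofL : LL.Term Empty → Tm
  | .var v => v.elim
  | .func Fs.z _ => .z
  | .func Fs.e _ => .e
  | .func (Fs.a i) _ => .a i
  | .func Fs.s ts => .s (ofL (ts 0))
  | .func Fs.c ts => .c (ofL (ts 0)) (ofL (ts 1))

@[simp] theorem ofL_zL : ofL zL = .z := rfl
@[simp] theorem ofL_eL : ofL eL = .e := rfl
@[simp] theorem ofL_aL (i : Fin 17) : ofL (aL i) = .a i := rfl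
@[simp] theorem ofL_sL (t : LL.Term Empty) : ofL (sL t) = .s (ofL t) := rfl
@[simp] theorem ofL_cL (t u : LL.Term Empty) : ofL (cL t u) = .c (ofL t) (ofL u) := rfl

theorem ofL_toL (t : Tm) : ofL (toL t) = t := by
  induction t with
  | z => rfl
  | e => rfl
  | a i => rfl
  | s t ih => simp [toL, ih]
  | c t u ih1 ih2 => simp [toL, ih1, ih2]

theorem toL_ofL (t : LL.Term Empty) : toL (ofL t) = t := by
  induction t with
  | var v => exact v.elim
  | func f ts ih =>
    cases f with
    | z => exact congrArg _ (funext fun i => i.elim0)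
    | e => exact congrArg _ (funext fun i => i.elim0)
    | a i => exact congrArg _ (funext fun i => i.elim0)
    | s =>
      show sL (toL (ofL (ts 0))) = _
      rw [ih 0]
      refine congrArg _ (funext fun i => ?_)
      rw [Subsingleton.elim i 0]
    | c =>
      show cL (toL (ofL (ts 0))) (toL (ofL (ts 1))) = _
      rw [ih 0, ih 1]
      refine congrArg _ (funext fun i => ?_)
      fin_cases i <;> rfl

/-- the bijection between the two kinds of ground terms -/
def eqvL : Tm ≃ LL.Term Empty := ⟨toL, ofL, ofL_toL, toL_ofL⟩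

section subst

variable (σ : ℕ → LL.Term Empty)

@[simp] theorem subst_zL : (zL : LL.Term ℕ).subst σ = zL :=
  func_congr (n := 0) fun i => i.elim0

@[simp] theorem subst_eL : (eL : LL.Term ℕ).subst σ = eL :=
  func_congr (n := 0) fun i => i.elim0

@[simp] theorem subst_aL (j : Fin 17) : (aL j : LL.Term ℕ).subst σ = aL j :=
  func_congr (n := 0) fun i => i.elim0

@[simp] theorem subst_sL (t : LL.Term ℕ) : (sL t).subst σ = sL (t.subst σ) := rfl

@[simp] theorem subst_cL (t u : LL.Term ℕ) : (cL t u).subst σ = cL (t.subst σ) (u.subst σ) := by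
  refine func_congr (n := 2) fun i => ?_
  fin_cases i <;> rfl

@[simp] theorem subst_var (i : ℕ) : (Term.var i : LL.Term ℕ).subst σ = σ i := rfl

theorem ofL_snL (n : ℕ) (t : LL.Term ℕ) : ofL ((snL n t).subst σ) = sn n (ofL (t.subst σ)) := by
  induction n with
  | zero => rfl
  | succ n ih => simp [snL, sn, ih]

theorem ofL_instL (p : Pat) : ofL ((instL p).subst σ) = inst (fun i => ofL (σ i)) p := by
  induction p with
  | nil => simp [instL, inst]
  | cons x p ih =>
    simp only [instL, inst, subst_cL, ofL_cL, ih]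
    congr 1
    rw [elL, ofL_snL, el]
    rcases x with ⟨k, _ | i⟩ <;> simp

end subst

theorem mem_RL {P : List Pat} {l r : LL.Term ℕ} (h : (l, r) ∈ RL P) :
    (l = sL (.var 0) ∧ r = zL) ∨ (l = cL (.var 0) (.var 1) ∧ (r = eL ∨ r = aL 0 ∨ r = aL 10)) ∨
    (l = eL ∧ (r = aL 2 ∨ r = aL 5)) ∨ (l = r ∧ (l = sL eL ∨ l = sL (cL (.var 0) (.var 1)) ∨
      l = cL eL (.var 0) ∨ l = cL (cL (.var 0) (.var 1)) (.var 2) ∨ l = cL (.var 0) zL ∨
      l = cL (.var 0) (sL (.var 1)))) ∨ (∃ p ∈ P, l = instL p ∧ r = aL 9) ∨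
    ∃ i j, cg i j = true ∧ l = aL i ∧ r = aL j := by
  unfold RL at h
  rw [List.mem_append, List.mem_append] at h
  rcases h with (h | h) | h
  · simp only [List.mem_cons, Prod.mk.injEq, List.not_mem_nil, or_false] at h
    rcases h with ⟨rfl, rfl⟩ | ⟨rfl, rfl⟩ | ⟨rfl, rfl⟩ | ⟨rfl, rfl⟩ | ⟨rfl, rfl⟩ | ⟨rfl, rfl⟩ |
      ⟨rfl, rfl⟩ | ⟨rfl, rfl⟩ | ⟨rfl, rfl⟩ | ⟨rfl, rfl⟩ | ⟨rfl, rfl⟩ | ⟨rfl, rfl⟩
    · exact Or.inl ⟨rfl, rfl⟩
    · exact Or.inr (Or.inl ⟨rfl, Or.inl rfl⟩)
    · exact Or.inr (Or.inl ⟨rfl, Or.inr (Or.inl rfl)⟩)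
    · exact Or.inr (Or.inl ⟨rfl, Or.inr (Or.inr rfl)⟩)
    · exact Or.inr (Or.inr (Or.inl ⟨rfl, Or.inl rfl⟩))
    · exact Or.inr (Or.inr (Or.inl ⟨rfl, Or.inr rfl⟩))
    · exact Or.inr (Or.inr (Or.inr (Or.inl ⟨rfl, Or.inl rfl⟩)))
    · exact Or.inr (Or.inr (Or.inr (Or.inl ⟨rfl, Or.inr (Or.inl rfl)⟩)))
    · exact Or.inr (Or.inr (Or.inr (Or.inl ⟨rfl, Or.inr (Or.inr (Or.inl rfl))⟩)))
    · exact Or.inr (Or.inr (Or.inr (Or.inl ⟨rfl, Or.inr (Or.inr (Or.inr (Or.inl rfl)))⟩)))
    · exact Or.inr (Or.inr (Or.inr (Or.inl ⟨rfl,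
        Or.inr (Or.inr (Or.inr (Or.inr (Or.inl rfl))))⟩)))
    · exact Or.inr (Or.inr (Or.inr (Or.inl ⟨rfl,
        Or.inr (Or.inr (Or.inr (Or.inr (Or.inr rfl))))⟩)))
  · rw [List.mem_map] at h
    obtain ⟨p, hp, h⟩ := h
    rw [Prod.mk.injEq] at h
    exact Or.inr (Or.inr (Or.inr (Or.inr (Or.inl ⟨p, hp, h.1.symm, h.2.symm⟩))))
  · rw [List.mem_flatMap] at h
    obtain ⟨i, _, h⟩ := h
    rw [List.mem_map] at h
    obtain ⟨j, hj, h⟩ := h
    rw [List.mem_filter] at hj
    rw [Prod.mk.injEq] at h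
    exact Or.inr (Or.inr (Or.inr (Or.inr (Or.inr ⟨i, j, hj.2, h.1.symm, h.2.symm⟩))))

theorem St_of_OneStep {P : List Pat} (hP : ∀ p ∈ P, p ≠ []) {x y : LL.Term Empty}
    (h : OneStep (RL P) x y) : St P (ofL x) (ofL y) := by
  induction h with
  | root h σ =>
    rcases mem_RL h with ⟨rfl, rfl⟩ | ⟨rfl, h'⟩ | ⟨rfl, h'⟩ | ⟨rfl, h'⟩ | ⟨p, hp, rfl, rfl⟩ |
      ⟨i, j, hij, rfl, rfl⟩
    · simpa using St.sz _
    · rcases h' with rfl | rfl | rfl
      · simpa using St.ce _ _
      · simpa using St.ck _ _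
      · simpa using St.ck' _ _
    · rcases h' with rfl | rfl
      · simpa using St.e2
      · simpa using St.e5
    · rcases h' with rfl | rfl | rfl | rfl | rfl | rfl
      · simpa using St.ls (Or.inl rfl)
      · simpa using St.ls (Or.inr ⟨_, _, rfl⟩)
      · simpa using St.lc (Or.inl rfl)
      · simpa using St.lc (Or.inr (Or.inl ⟨_, _, rfl⟩))
      · simpa using St.lc (Or.inr (Or.inr (Or.inl rfl)))
      · simpa using St.lc (Or.inr (Or.inr (Or.inr ⟨_, rfl⟩)))
    · rw [subst_aL, ofL_aL]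
      exact St.win hp (hP p hp) (ofL_instL σ p)
    · simpa using St.cgs hij
  | arg f ts i h ih =>
    cases f with
    | z => exact i.elim0
    | e => exact i.elim0
    | a j => exact i.elim0
    | s =>
      obtain rfl : i = 0 := Subsingleton.elim _ _
      show St P (.s (ofL (ts 0))) (.s (ofL (Function.update ts 0 _ 0)))
      rw [Function.update_self]
      exact St.s ih
    | c =>
      show St P (.c (ofL (ts 0)) (ofL (ts 1)))
        (.c (ofL (Function.update ts i _ 0)) (ofL (Function.update ts i _ 1)))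
      have hi : i = 0 ∨ i = 1 := by
        revert i
        intro i _ _
        fin_cases i
        · exact Or.inl rfl
        · exact Or.inr rfl
      rcases hi with rfl | rfl
      · rw [Function.update_self, Function.update_of_ne (by decide)]
        exact St.cl _ ih
      · rw [Function.update_self, Function.update_of_ne (by decide)]
        exact St.cr _ ih

theorem root' {P : List Pat} {l r : LL.Term ℕ} (h : (l, r) ∈ RL P) (σ : ℕ → LL.Term Empty)
    {x y : LL.Term Empty} (hx : l.subst σ = x) (hy : r.subst σ = y) : OneStep (RL P) x y := by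
  subst hx
  subst hy
  exact .root h σ

theorem OneStep_sL {P : List Pat} {t t' : LL.Term Empty} (h : OneStep (RL P) t t') :
    OneStep (RL P) (sL t) (sL t') := by
  have := OneStep.arg (L := LL) (n := 1) Fs.s (fun _ => t) 0 h
  have e1 : (sL t' : LL.Term Empty) =
      FirstOrder.Language.Term.func (L := LL) Fs.s (Function.update (fun _ => t) 0 t') := by
    refine func_congr (n := 1) fun i => ?_
    rw [Subsingleton.elim i 0, Function.update_self]
  rw [e1]
  exact this

theorem OneStep_cl {P : List Pat} {t t' : LL.Term Empty} (u : LL.Term Empty)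
    (h : OneStep (RL P) t t') : OneStep (RL P) (cL t u) (cL t' u) := by
  have := OneStep.arg (L := LL) (n := 2) Fs.c (fun i => if i = 0 then t else u) 0 h
  have e1 : (cL t' u : LL.Term Empty) = FirstOrder.Language.Term.func (L := LL) Fs.c
      (Function.update (fun i => if i = 0 then t else u) 0 t') := by
    refine func_congr (n := 2) fun i => ?_
    fin_cases i <;> rfl
  rw [e1]
  exact this

theorem OneStep_cr {P : List Pat} {t t' : LL.Term Empty} (u : LL.Term Empty)
    (h : OneStep (RL P) t t') : OneStep (RL P) (cL u t) (cL u t') := by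
  have := OneStep.arg (L := LL) (n := 2) Fs.c (fun i => if i = 0 then u else t) 1 h
  have e1 : (cL u t' : LL.Term Empty) = FirstOrder.Language.Term.func (L := LL) Fs.c
      (Function.update (fun i => if i = 0 then u else t) 1 t') := by
    refine func_congr (n := 2) fun i => ?_
    fin_cases i <;> rfl
  rw [e1]
  exact this

theorem OneStep_of_St {P : List Pat} {x y : Tm} (h : St P x y) :
    OneStep (RL P) (toL x) (toL y) := by
  have hmem : ∀ x, x ∈ ([(sL (.var 0), zL), (cL (.var 0) (.var 1), eL),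
      (cL (.var 0) (.var 1), aL 0),
    (cL (.var 0) (.var 1), aL 10), (eL, aL 2), (eL, aL 5), (sL eL, sL eL),
    (sL (cL (.var 0) (.var 1)), sL (cL (.var 0) (.var 1))), (cL eL (.var 0), cL eL (.var 0)),
    (cL (cL (.var 0) (.var 1)) (.var 2), cL (cL (.var 0) (.var 1)) (.var 2)),
    (cL (.var 0) zL, cL (.var 0) zL), (cL (.var 0) (sL (.var 1)), cL (.var 0) (sL (.var 1)))] :
      List (LL.Term ℕ × LL.Term ℕ)) → x ∈ RL P := by
    intro x hx
    exact List.mem_append_left _ (List.mem_append_left _ hx)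
  induction h with
  | sz t =>
    refine root' (l := sL (.var 0)) (r := zL) (hmem _ (by simp)) (fun _ => toL t) ?_ ?_ <;>
      simp [toL]
  | ce t u =>
    refine root' (l := cL (.var 0) (.var 1)) (r := eL) (hmem _ (by simp))
      (fun i => if i = 0 then toL t else toL u) ?_ ?_ <;> simp [toL]
  | ck t u =>
    refine root' (l := cL (.var 0) (.var 1)) (r := aL 0) (hmem _ (by simp))
      (fun i => if i = 0 then toL t else toL u) ?_ ?_ <;> simp [toL]
  | ck' t u =>
    refine root' (l := cL (.var 0) (.var 1)) (r := aL 10) (hmem _ (by simp))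
      (fun i => if i = 0 then toL t else toL u) ?_ ?_ <;> simp [toL]
  | @win p σ t hp hn ht =>
    refine root' (l := instL p) (r := aL 9) ?_ (fun i => toL (σ i)) ?_ ?_
    · refine List.mem_append_left _ (List.mem_append_right _ ?_)
      exact List.mem_map.2 ⟨p, hp, rfl⟩
    · rw [← toL_ofL ((instL p).subst _), ofL_instL]
      simp only [ofL_toL]
      rw [ht]
    · simp [toL]
  | e2 =>
    refine root' (l := eL) (r := aL 2) (hmem _ (by simp)) (fun _ => zL) ?_ ?_ <;> simp [toL]
  | e5 =>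
    refine root' (l := eL) (r := aL 5) (hmem _ (by simp)) (fun _ => zL) ?_ ?_ <;> simp [toL]
  | @cgs i j h =>
    refine root' (l := aL i) (r := aL j) ?_ (fun _ => zL) ?_ ?_
    · refine List.mem_append_right _ ?_
      rw [List.mem_flatMap]
      exact ⟨i, List.mem_finRange _, List.mem_map.2 ⟨j, List.mem_filter.2
        ⟨List.mem_finRange _, h⟩, rfl⟩⟩
    · simp [toL]
    · simp [toL]
  | @ls t h =>
    rcases h with rfl | ⟨u, v, rfl⟩
    · refine root' (l := sL eL) (r := sL eL) (hmem _ (by simp)) (fun _ => zL) ?_ ?_ <;>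
        simp [toL]
    · refine root' (l := sL (cL (.var 0) (.var 1))) (r := sL (cL (.var 0) (.var 1)))
        (hmem _ (by simp)) (fun i => if i = 0 then toL u else toL v) ?_ ?_ <;> simp [toL]
  | @lc t u h =>
    rcases h with rfl | ⟨v, w, rfl⟩ | rfl | ⟨v, rfl⟩
    · refine root' (l := cL eL (.var 0)) (r := cL eL (.var 0)) (hmem _ (by simp))
        (fun _ => toL u) ?_ ?_ <;> simp [toL]
    · refine root' (l := cL (cL (.var 0) (.var 1)) (.var 2))
        (r := cL (cL (.var 0) (.var 1)) (.var 2)) (hmem _ (by simp))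
        (fun i => if i = 0 then toL v else if i = 1 then toL w else toL u) ?_ ?_ <;> simp [toL]
    · refine root' (l := cL (.var 0) zL) (r := cL (.var 0) zL) (hmem _ (by simp))
        (fun _ => toL t) ?_ ?_ <;> simp [toL]
    · refine root' (l := cL (.var 0) (sL (.var 1))) (r := cL (.var 0) (sL (.var 1)))
        (hmem _ (by simp)) (fun i => if i = 0 then toL t else toL v) ?_ ?_ <;> simp [toL]
  | s h ih => exact OneStep_sL ih
  | cl u h ih => exact OneStep_cl _ ih
  | cr t h ih => exact OneStep_cr _ ih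

theorem OneStep_iff {P : List Pat} (hP : ∀ p ∈ P, p ≠ []) {x y : Tm} :
    St P x y ↔ OneStep (RL P) (eqvL x) (eqvL y) := by
  constructor
  · exact OneStep_of_St
  · intro h
    have := St_of_OneStep hP h
    rwa [show ofL (eqvL x) = x from ofL_toL x, show ofL (eqvL y) = y from ofL_toL y] at this

theorem Holds_equiv {T T' : Type} {S : T → T → Prop} {S' : T' → T' → Prop} (f : T ≃ T')
    (h : ∀ x y, S x y ↔ S' (f x) (f y)) (φ : PF) (v : ℕ → T) :
    Holds S φ v ↔ Holds S' φ (fun i => f (v i)) := by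
  have hs : ∀ (x : T) (v : ℕ → T), (fun i => f (scons x v i)) = scons (f x) (fun i => f (v i)) := by
    intro x v
    funext i
    cases i <;> rfl
  induction φ generalizing v with
  | eq i j => exact f.injective.eq_iff.symm
  | rel i j => exact h _ _
  | and φ ψ ih1 ih2 => exact and_congr (ih1 v) (ih2 v)
  | or φ ψ ih1 ih2 => exact or_congr (ih1 v) (ih2 v)
  | ex φ ih =>
    constructor
    · rintro ⟨x, hx⟩
      refine ⟨f x, ?_⟩
      rw [← hs]
      exact (ih _).1 hx
    · rintro ⟨x, hx⟩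
      refine ⟨f.symm x, (ih _).2 ?_⟩
      rw [hs, f.apply_symm_apply]
      exact hx
  | all φ ih =>
    constructor
    · intro hx x
      have := (ih _).1 (hx (f.symm x))
      rwa [hs, f.apply_symm_apply] at this
    · intro hx x
      refine (ih _).2 ?_
      rw [hs]
      exact hx _

theorem posDecidable_equiv {T T' : Type} {S : T → T → Prop} {S' : T' → T' → Prop} (f : T ≃ T')
    (h : ∀ x y, S x y ↔ S' (f x) (f y)) (hd : PosDecidable S') : PosDecidable S := by
  obtain ⟨d, hd, hd2⟩ := hd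
  refine ⟨d, hd, fun φ hφ => (hd2 φ hφ).trans ⟨fun hh v => ?_, fun hh v => ?_⟩⟩
  · exact (Holds_equiv f h φ v).2 (hh _)
  · have := (Holds_equiv f h φ (fun i => f.symm (v i))).1 (hh _)
    simpa using this

theorem isRule_of {l r : LL.Term ℕ} {P : List Pat} (h : (l, r) ∈ RL P) : IsRule l r := by
  have hz : (zL : LL.Term ℕ).varFinset = ∅ := by simp [zL, FirstOrder.Language.Term.varFinset]
  have he : (eL : LL.Term ℕ).varFinset = ∅ := by simp [eL, FirstOrder.Language.Term.varFinset]
  have ha : ∀ j, (aL j : LL.Term ℕ).varFinset = ∅ := fun j => by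
    simp [aL, FirstOrder.Language.Term.varFinset]
  have h1 : ∀ i, (zL : LL.Term ℕ) ≠ .var i := by intro i; simp [zL]
  have h2 : ∀ i, (eL : LL.Term ℕ) ≠ .var i := by intro i; simp [eL]
  have h3 : ∀ j i, (aL j : LL.Term ℕ) ≠ .var i := by intro j i; simp [aL]
  have h4 : ∀ (t : LL.Term ℕ) i, sL t ≠ .var i := by intro t i; simp [sL]
  have h5 : ∀ (t u : LL.Term ℕ) i, cL t u ≠ .var i := by intro t u i; simp [cL]
  rcases mem_RL h with ⟨rfl, rfl⟩ | ⟨rfl, h'⟩ | ⟨rfl, h'⟩ | ⟨rfl, h'⟩ | ⟨p, hp, rfl, rfl⟩ |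
      ⟨i, j, hij, rfl, rfl⟩
  · exact ⟨h4 _, by rw [hz]; simp⟩
  · refine ⟨h5 _ _, ?_⟩
    rcases h' with rfl | rfl | rfl
    · rw [he]; simp
    · rw [ha]; simp
    · rw [ha]; simp
  · refine ⟨h2, ?_⟩
    rcases h' with rfl | rfl
    · rw [ha]; simp
    · rw [ha]; simp
  · refine ⟨?_, Finset.Subset.refl _⟩
    rcases h' with rfl | rfl | rfl | rfl | rfl | rfl
    · exact h4 _
    · exact h4 _
    · exact h5 _ _
    · exact h5 _ _
    · exact h5 _ _
    · exact h5 _ _
  · refine ⟨?_, by rw [ha]; simp⟩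
    cases p with
    | nil => exact h2
    | cons x p => exact h5 _ _
  · exact ⟨h3 i, by rw [ha]; simp⟩

instance : Finite (Σ n, Fs n) := by
  have : Function.Surjective (fun x : Fin 17 ⊕ Fin 4 => (match x with
    | .inl i => ⟨0, .a i⟩
    | .inr 0 => ⟨0, .z⟩
    | .inr 1 => ⟨0, .e⟩
    | .inr 2 => ⟨1, .s⟩
    | .inr 3 => ⟨2, .c⟩ : Σ n, Fs n)) := by
    rintro ⟨n, f⟩
    cases f with
    | z => exact ⟨.inr 0, rfl⟩
    | e => exact ⟨.inr 1, rfl⟩
    | a i => exact ⟨.inl i, rfl⟩
    | s => exact ⟨.inr 2, rfl⟩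
    | c => exact ⟨.inr 3, rfl⟩
  exact Finite.of_surjective _ this

end Pool.Agent.R569.OSR
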